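import Pool.Agent.U36.SD.C1a

/-! Project SD: package C1, upper bound -/

set_option autoImplicit false
set_option linter.unusedSectionVars false

open NumberField Polynomial IsDedekindDomain Pool.Agent.W401.Cheb

namespace Pool.Agent.U36.SD

open Pool.Agent.U36.DN

section

variable {K : Type} [Field K] [NumberField K]

lemma fix_n {A : Finset ℕ} (hA : ∀ ℓ ∈ A, ℓ.Prime) {g : GK K}
    (hg : ∀ ℓ ∈ A, ∀ ζ : AlgebraicClosure K, ζ ^ ℓ = 1 → g ζ = ζ) :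
    ∀ w : AlgebraicClosure K, w ^ (∏ ℓ ∈ A, ℓ) = 1 → g w = w := by
  classical
  induction A using Finset.induction_on with
  | empty =>
    intro w hw
    rw [Finset.prod_empty, pow_one] at hw
    rw [hw, map_one]
  | insert q B hqB ih =>
    intro w hw
    have hqA := Finset.mem_insert_self q B
    have hcop : Nat.Coprime q (∏ ℓ ∈ B, ℓ) := by
      rw [Nat.coprime_prod_right_iff]
      intro ℓ hℓ
      rw [Nat.coprime_primes (hA q hqA) (hA ℓ (Finset.mem_insert_of_mem hℓ))]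
      rintro rfl
      exact hqB hℓ
    rw [Finset.prod_insert hqB] at hw
    have e1 : g (w ^ q) = w ^ q := by
      apply ih (fun x hx => hA x (Finset.mem_insert_of_mem hx))
        (fun x hx => hg x (Finset.mem_insert_of_mem hx))
      rw [← pow_mul]
      exact hw
    have e2 : g (w ^ (∏ ℓ ∈ B, ℓ)) = w ^ (∏ ℓ ∈ B, ℓ) := by
      apply hg q hqA
      rw [← pow_mul, mul_comm, hw]
    have hw0 : w ≠ 0 := by
      intro h0
      rw [h0, zero_pow] at hw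
      · exact zero_ne_one hw
      · exact (Nat.mul_pos (hA q hqA).pos (Finset.prod_pos fun ℓ hℓ =>
          (hA ℓ (Finset.mem_insert_of_mem hℓ)).pos)).ne'
    have hb := Nat.gcd_eq_gcd_ab q (∏ ℓ ∈ B, ℓ)
    rw [hcop.gcd_eq_one] at hb
    have e3 : w = (w ^ q) ^ (Nat.gcdA q (∏ ℓ ∈ B, ℓ)) * (w ^ (∏ ℓ ∈ B, ℓ)) ^ (Nat.gcdB q (∏ ℓ ∈ B, ℓ)) := by
      rw [← zpow_natCast w q, ← zpow_natCast w (∏ ℓ ∈ B, ℓ), ← zpow_mul, ← zpow_mul, ← zpow_add₀ hw0,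
        ← hb, Nat.cast_one, zpow_one]
    conv_lhs => rw [e3]
    rw [map_mul, map_zpow₀, map_zpow₀, e1, e2, ← e3]

/-- the exponents of the action on roots of unity -/
lemma exists_exp {ℓ : ℕ} (hℓ : ℓ.Prime) (g : GK K) :
    ∃ a ∈ Finset.Ico 1 ℓ, ∀ ζ : AlgebraicClosure K, ζ ^ ℓ = 1 → g ζ = ζ ^ a := by
  have hn0 : NeZero ℓ := ⟨hℓ.ne_zero⟩
  have hn1 : NeZero (ℓ : AlgebraicClosure K) := ⟨Nat.cast_ne_zero.2 hℓ.ne_zero⟩
  obtain ⟨z, hz⟩ := HasEnoughRootsOfUnity.exists_primitiveRoot (AlgebraicClosure K) ℓ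
  obtain ⟨a, ha, haz⟩ := hz.eq_pow_of_pow_eq_one (ξ := g z) (by rw [← map_pow, hz.pow_eq_one, map_one])
  refine ⟨a, Finset.mem_Ico.2 ⟨?_, ha⟩, fun ζ hζ => ?_⟩
  · by_contra h0
    have h1 : a = 0 := by omega
    rw [h1, pow_zero] at haz
    have h2 : z = 1 := g.injective (by rw [← haz, map_one])
    exact hz.ne_one hℓ.one_lt h2
  · obtain ⟨i, -, rfl⟩ := hz.eq_pow_of_pow_eq_one hζ
    rw [map_pow, ← haz, ← pow_mul, ← pow_mul, mul_comm]

/-- the good exponents for an automorphism of `N` -/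
def GoodE (N : IntermediateField K (AlgebraicClosure K)) (h ℓ : ℕ) (c : N) (ν : N ≃ₐ[K] N) (a : ℕ) :
    Prop :=
  a ^ h ≡ 1 [MOD ℓ] ∧ ∀ x : N, x ^ ℓ ≠ ∏ i ∈ Finset.range h, (ν ^ i) c ^ (a ^ (h - i))

lemma rest (N : IntermediateField K (AlgebraicClosure K)) [Normal K N] (σ : GK K) (i : ℕ) (c : N) :
    (((AlgEquiv.restrictNormalHom N σ) ^ i) c : AlgebraicClosure K) = (σ ^ i) (c : AlgebraicClosure K) := by
  rw [← map_pow]
  exact AlgEquiv.restrictNormal_commutes (σ ^ i) N c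

lemma exists_goodE (hGE : S_GE) (N : IntermediateField K (AlgebraicClosure K))
    [FiniteDimensional K N] [Normal K N] {h : ℕ} (hh : 0 < h) {ℓ : ℕ} (hℓ : ℓ.Prime)
    (hdvd : h ∣ ℓ - 1) (c : N) (hc : ∀ x : N, x ^ ℓ ≠ c) (ν : N ≃ₐ[K] N) :
    ∃ a ∈ Finset.Ico 1 ℓ, GoodE N h ℓ c ν a := by
  classical
  obtain ⟨σ, rfl⟩ := AlgEquiv.restrictNormalHom_surjective (F := K) (K₁ := N) (AlgebraicClosure K) ν
  obtain ⟨a, ha, ha1, hax⟩ := hGE K N h hh ℓ hℓ hdvd c c.2 (fun x hx h1 => hc ⟨x, hx⟩ (by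
    apply Subtype.ext
    exact h1)) σ
  have ha' : a % ℓ ≠ 0 := fun h0 => ha (Nat.dvd_of_mod_eq_zero h0)
  refine ⟨a % ℓ, Finset.mem_Ico.2 ⟨Nat.pos_of_ne_zero ha', Nat.mod_lt _ hℓ.pos⟩, ?_, ?_⟩
  · exact ((Nat.mod_modEq a ℓ).pow h).trans ha1
  · intro x hx
    have hc0 : c ≠ 0 := fun h0 => hc 0 (by rw [h0, zero_pow hℓ.ne_zero])
    have hle : ∀ i, (a % ℓ) ^ (h - i) ≤ a ^ (h - i) := fun i => Nat.pow_le_pow_left (Nat.mod_le _ _) _
    have hdv : ∀ i, ∃ k, a ^ (h - i) = (a % ℓ) ^ (h - i) + ℓ * k := by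
      intro i
      have h1 : (a % ℓ) ^ (h - i) ≡ a ^ (h - i) [MOD ℓ] := (Nat.mod_modEq a ℓ).pow _
      obtain ⟨k, hk⟩ := (Nat.modEq_iff_dvd' (hle i)).1 h1
      exact ⟨k, by have := hle i; omega⟩
    choose k hk using hdv
    refine hax (x * ∏ i ∈ Finset.range h, ((AlgEquiv.restrictNormalHom N σ) ^ i) c ^ k i : N)
      (SetLike.coe_mem _) ?_
    have h2 : (x * ∏ i ∈ Finset.range h, ((AlgEquiv.restrictNormalHom N σ) ^ i) c ^ k i) ^ ℓ =
        ∏ i ∈ Finset.range h, ((AlgEquiv.restrictNormalHom N σ) ^ i) c ^ (a ^ (h - i)) := by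
      rw [mul_pow, hx, ← Finset.prod_pow, ← Finset.prod_mul_distrib]
      apply Finset.prod_congr rfl
      intro i _
      rw [hk i, pow_add, ← pow_mul, mul_comm (k i) ℓ]
    have h3 := congrArg (algebraMap N (AlgebraicClosure K)) h2
    rw [map_pow, map_prod] at h3
    refine h3.trans (Finset.prod_congr rfl fun i _ => ?_)
    rw [map_pow]
    congr 1
    exact rest N σ i c

end

theorem t_C1B (hGE : S_GE) (hFIB : S_FIB) (hOP : S_OP) : S_C1B := by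
  classical
  intro K _ _ N _ _ A hA hd hdvd c hc
  obtain ⟨hnorm, hopen, hst⟩ := hOP K N A (fun ℓ hℓ => (hA ℓ hℓ).pos) c
  have hfin : Finite (GK K ⧸ US N A c) := Subgroup.quotient_finite_of_isOpen _ hopen
  set h := Module.finrank K N with hh
  have hh0 : 0 < h := Module.finrank_pos
  obtain ⟨-, -, hCO⟩ := hst h
  have hgal : Finite (N ≃ₐ[K] N) := inferInstance
  let _ : Fintype (N ≃ₐ[K] N) := Fintype.ofFinite _
  set T : Set (GK K ⧸ US N A c) := (QuotientGroup.mk : GK K → GK K ⧸ US N A c) ''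
      (HZ N (∏ ℓ ∈ A, ℓ) : Set (GK K)) with hT
  set cN : A → N := fun ℓ => ⟨c ℓ, (hc ℓ ℓ.2).1⟩ with hcN
  choose ex hex1 hex2 using fun (g : GK K) (ℓ : A) => exists_exp (hA ℓ ℓ.2) g
  set S : Finset (GK K ⧸ US N A c) := ((QuotientGroup.mk : GK K → GK K ⧸ US N A c) ''
    CO A c h).toFinite.toFinset with hS
  have hSc : ((QuotientGroup.mk : GK K → GK K ⧸ US N A c) '' CO A c h).ncard = S.card :=
    Set.ncard_eq_toFinset_card _ _
  have hout : ∀ q ∈ S, q.out ∈ CO A c h := by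
    intro q hq
    rw [hS, Set.Finite.mem_toFinset] at hq
    obtain ⟨g, hg, rfl⟩ := hq
    obtain ⟨u, hu⟩ := QuotientGroup.mk_out_eq_mul (US N A c) g
    rw [hu]
    exact hCO g hg u.1 u.2
  set F : GK K ⧸ US N A c → (N ≃ₐ[K] N) × (A → ℕ) := fun q =>
    (AlgEquiv.restrictNormalHom N q.out, fun ℓ => ex q.out ℓ) with hF
  set P : Finset (A → ℕ) := Fintype.piFinset (fun ℓ : A => Finset.Ico 1 ℓ.1) with hP
  have hmaps : ∀ q ∈ S, F q ∈ (Finset.univ : Finset (N ≃ₐ[K] N)) ×ˢ P := by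
    intro q _
    rw [Finset.mem_product]
    exact ⟨Finset.mem_univ _, Fintype.mem_piFinset.2 fun ℓ => hex1 _ _⟩
  set w : (N ≃ₐ[K] N) → (ℓ : A) → ℕ → ℝ := fun ν ℓ a =>
    if GoodE N h ℓ (cN ℓ) ν a then (1 : ℝ) / (ℓ.1 : ℝ) else 1 with hw
  have hw0 : ∀ ν ℓ a, 0 ≤ w ν ℓ a := by
    intro ν ℓ a
    rw [hw]
    simp only
    split_ifs
    · positivity
    · exact zero_le_one
  have hfib : ∀ t ∈ (Finset.univ : Finset (N ≃ₐ[K] N)) ×ˢ P,
      ((S.filter fun q => F q = t).card : ℝ) ≤ (T.ncard : ℝ) * ∏ ℓ : A, w t.1 ℓ (t.2 ℓ) := by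
    rintro ⟨ν, a⟩ -
    rcases (S.filter fun q => F q = (ν, a)).eq_empty_or_nonempty with he | ⟨q0, hq0⟩
    · rw [he, Finset.card_empty, Nat.cast_zero]
      exact mul_nonneg (Nat.cast_nonneg _) (Finset.prod_nonneg fun ℓ _ => hw0 _ _ _)
    · rw [Finset.mem_filter] at hq0
      obtain ⟨hq0S, hq0F⟩ := hq0
      set σ := q0.out with hσ
      have hν : AlgEquiv.restrictNormalHom N σ = ν := congrArg Prod.fst hq0F
      have hexa : ∀ ℓ : A, ex σ ℓ = a ℓ := fun ℓ => congrFun (congrArg Prod.snd hq0F) ℓ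
      set A' : Finset ℕ := A.filter fun ℓ => ∃ hℓ : ℓ ∈ A, GoodE N h ℓ (cN ⟨ℓ, hℓ⟩) ν (a ⟨ℓ, hℓ⟩)
        with hA'
      have hgood : ∀ ℓ ∈ A', Good N c h σ ℓ := by
        intro ℓ hℓ
        obtain ⟨-, hℓA, h1, h2⟩ := Finset.mem_filter.1 hℓ
        refine ⟨a ⟨ℓ, hℓA⟩, ?_, h1, fun x hx hxe => ?_⟩
        · rw [← hexa ⟨ℓ, hℓA⟩]
          exact hex2 σ ⟨ℓ, hℓA⟩
        · apply h2 ⟨x, hx⟩
          apply (algebraMap N (AlgebraicClosure K)).injective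
          rw [map_pow, map_prod]
          refine hxe.trans (Finset.prod_congr rfl fun i _ => ?_)
          rw [map_pow]
          congr 1
          rw [← hν]
          exact (rest N σ i (cN ⟨ℓ, hℓA⟩)).symm
      have h1 := hFIB K N A hA hd c hc h σ A' (Finset.filter_subset _ _) hgood
      have h2 : (S.filter fun q => F q = (ν, a)).card ≤
          ((QuotientGroup.mk : GK K → GK K ⧸ US N A c) ''
            {g | g ∈ CO A c h ∧ σ⁻¹ * g ∈ HZ N (∏ ℓ ∈ A, ℓ)}).ncard := by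
        rw [← Set.ncard_coe_finset]
        apply Set.ncard_le_ncard _ (Set.toFinite _)
        intro q hq
        rw [Finset.mem_coe, Finset.mem_filter] at hq
        obtain ⟨hqS, hqF⟩ := hq
        refine ⟨q.out, ⟨hout q hqS, ?_, ?_⟩, QuotientGroup.out_eq' q⟩
        · intro x hx
          have h3 : AlgEquiv.restrictNormalHom N q.out = AlgEquiv.restrictNormalHom N σ :=
            (congrArg Prod.fst hqF).trans hν.symm
          have h4 := rest N q.out 1 ⟨x, hx⟩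
          have h5 := rest N σ 1 ⟨x, hx⟩
          rw [h3, h5, pow_one, pow_one] at h4
          have h6 : q.out x = σ x := h4.symm
          rw [AlgEquiv.mul_apply, h6, ← AlgEquiv.mul_apply, inv_mul_cancel]
          rfl
        · refine fix_n hA fun ℓ hℓ ζ hζ => ?_
          have h3 : ex q.out ⟨ℓ, hℓ⟩ = ex σ ⟨ℓ, hℓ⟩ :=
            (congrFun (congrArg Prod.snd hqF) ⟨ℓ, hℓ⟩).trans (hexa ⟨ℓ, hℓ⟩).symm
          have h4 := hex2 q.out ⟨ℓ, hℓ⟩ ζ hζ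
          rw [h3, ← hex2 σ ⟨ℓ, hℓ⟩ ζ hζ] at h4
          rw [AlgEquiv.mul_apply, h4, ← AlgEquiv.mul_apply, inv_mul_cancel]
          rfl
      have h3 : ((∏ ℓ ∈ A', (ℓ : ℝ)) * ((S.filter fun q => F q = (ν, a)).card : ℝ)) ≤
          (T.ncard : ℝ) := by
        have h4 : (∏ ℓ ∈ A', ℓ) * (S.filter fun q => F q = (ν, a)).card ≤ T.ncard :=
          (Nat.mul_le_mul_left (∏ ℓ ∈ A', ℓ) h2).trans h1
        have h4' : (((∏ ℓ ∈ A', ℓ) * (S.filter fun q => F q = (ν, a)).card : ℕ) : ℝ) ≤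
          ((T.ncard : ℕ) : ℝ) := Nat.cast_le.2 h4
        rw [Nat.cast_mul, Nat.cast_prod] at h4'
        exact h4'
      have h5 : ∏ ℓ : A, w ν ℓ (a ℓ) = (∏ ℓ ∈ A', (ℓ : ℝ))⁻¹ := by
        rw [← Finset.prod_inv_distrib, hA', Finset.prod_filter,
          ← Finset.prod_coe_sort A (fun ℓ => if ∃ hℓ : ℓ ∈ A,
            GoodE N h ℓ (cN ⟨ℓ, hℓ⟩) ν (a ⟨ℓ, hℓ⟩) then ((ℓ : ℝ))⁻¹ else 1)]
        apply Finset.prod_congr rfl
        intro ℓ _
        rw [hw]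
        simp only
        by_cases hg : GoodE N h ℓ (cN ℓ) ν (a ℓ)
        · rw [if_pos hg, if_pos ⟨ℓ.2, hg⟩, one_div]
        · rw [if_neg hg, if_neg]
          rintro ⟨_, hg'⟩
          exact hg hg'
      have h6 : 0 < ∏ ℓ ∈ A', (ℓ : ℝ) := Finset.prod_pos fun ℓ hℓ => by
        exact_mod_cast (hA ℓ (Finset.mem_filter.1 hℓ).1).pos
      change _ ≤ (T.ncard : ℝ) * ∏ ℓ : A, w ν ℓ (a ℓ)
      rw [h5, ← div_eq_mul_inv, le_div_iff₀ h6, mul_comm]
      exact h3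
  have hsum : (S.card : ℝ) = ∑ t ∈ (Finset.univ : Finset (N ≃ₐ[K] N)) ×ˢ P,
      ((S.filter fun q => F q = t).card : ℝ) := by
    exact_mod_cast Finset.card_eq_sum_card_fiberwise hmaps
  rw [hSc, hsum]
  have hone : ∀ (ν : N ≃ₐ[K] N) (ℓ : A), ∑ a ∈ Finset.Ico 1 ℓ.1, w ν ℓ a ≤
      ((ℓ.1 : ℝ) - 1) ^ 2 / ℓ.1 := by
    intro ν ℓ
    have hp := hA ℓ ℓ.2
    have hp0 : (0 : ℝ) < ℓ.1 := by exact_mod_cast hp.pos
    obtain ⟨a0, ha0, hg0⟩ := exists_goodE hGE N hh0 hp (hdvd ℓ ℓ.2) (cN ℓ) (fun x hx =>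
      (hc ℓ ℓ.2).2 x x.2 (by
        have h1 := congrArg (algebraMap N (AlgebraicClosure K)) hx
        rw [map_pow] at h1
        exact h1)) ν
    rw [← Finset.add_sum_erase _ _ ha0]
    have h1 : w ν ℓ a0 = 1 / (ℓ.1 : ℝ) := if_pos hg0
    have h2 : ∑ a ∈ (Finset.Ico 1 ℓ.1).erase a0, w ν ℓ a ≤ (ℓ.1 : ℝ) - 2 := by
      have h3 : ∑ a ∈ (Finset.Ico 1 ℓ.1).erase a0, w ν ℓ a ≤
          ∑ a ∈ (Finset.Ico 1 ℓ.1).erase a0, (1 : ℝ) := by
        apply Finset.sum_le_sum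
        intro a _
        rw [hw]
        simp only
        split_ifs
        · rw [div_le_one hp0]
          exact_mod_cast hp.one_lt.le
        · exact le_rfl
      refine h3.trans (le_of_eq ?_)
      rw [Finset.sum_const, nsmul_eq_mul, mul_one, Finset.card_erase_of_mem ha0, Nat.card_Ico,
        Nat.cast_sub (by have := hp.two_le; omega), Nat.cast_sub hp.one_lt.le]
      push_cast
      ring
    rw [h1]
    have h4 : 1 / (ℓ.1 : ℝ) + ((ℓ.1 : ℝ) - 2) = ((ℓ.1 : ℝ) - 1) ^ 2 / ℓ.1 := by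
      field_simp
      ring
    linarith
  calc ∑ t ∈ (Finset.univ : Finset (N ≃ₐ[K] N)) ×ˢ P, ((S.filter fun q => F q = t).card : ℝ) ≤
      ∑ t ∈ (Finset.univ : Finset (N ≃ₐ[K] N)) ×ˢ P, (T.ncard : ℝ) * ∏ ℓ : A, w t.1 ℓ (t.2 ℓ) :=
        Finset.sum_le_sum hfib
    _ = (T.ncard : ℝ) * ∑ ν : N ≃ₐ[K] N, ∑ a ∈ P, ∏ ℓ : A, w ν ℓ (a ℓ) := by
        rw [← Finset.mul_sum, Finset.sum_product]
    _ = (T.ncard : ℝ) * ∑ ν : N ≃ₐ[K] N, ∏ ℓ : A, ∑ a ∈ Finset.Ico 1 ℓ.1, w ν ℓ a := by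
        congr 1
        apply Finset.sum_congr rfl
        intro ν _
        rw [Finset.prod_univ_sum]
    _ ≤ (T.ncard : ℝ) * ∑ ν : N ≃ₐ[K] N, ∏ ℓ : A, (((ℓ.1 : ℝ) - 1) ^ 2 / ℓ.1) := by
        apply mul_le_mul_of_nonneg_left _ (Nat.cast_nonneg _)
        apply Finset.sum_le_sum
        intro ν _
        apply Finset.prod_le_prod
        · intro ℓ _
          exact Finset.sum_nonneg fun a _ => hw0 _ _ _
        · intro ℓ _
          exact hone ν ℓ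
    _ = _ := by
        rw [Finset.sum_const, Finset.card_univ, nsmul_eq_mul,
          Finset.prod_coe_sort A (fun ℓ => (((ℓ : ℝ) - 1) ^ 2 / (ℓ : ℝ)))]
        have hcard : Fintype.card (N ≃ₐ[K] N) = h := by
          have : IsGalois K N := ⟨⟩
          rw [← Nat.card_eq_fintype_card, IsGalois.card_aut_eq_finrank]
        rw [hcard]
        ring

end Pool.Agent.U36.SD
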