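import Pool.Agent.U36.SD.Stm

/-! Project SD: package GE -/

set_option autoImplicit false

open NumberField Polynomial IsDedekindDomain Pool.Agent.W401.Cheb

namespace Pool.Agent.U36.SD

theorem t_GE : S_GE := by
  classical
  intro K _ _ N _ _ h hh ℓ hℓ hdvd c hcN hc σ
  by_contra hcon
  push Not at hcon
  have hF : Fact ℓ.Prime := ⟨hℓ⟩
  have hc0 : c ≠ 0 := fun h0 => hc 0 N.zero_mem (by rw [h0, zero_pow hℓ.ne_zero])
  -- conjugates are in N
  have hN : ∀ τ : GK K, ∀ y ∈ N, τ y ∈ N := by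
    intro τ y hy
    have h3 := (AlgHom.restrictNormal_commutes (τ : AlgebraicClosure K →ₐ[K] AlgebraicClosure K) N ⟨y, hy⟩)
    have h4 : (τ : AlgebraicClosure K →ₐ[K] AlgebraicClosure K)
      (algebraMap N (AlgebraicClosure K) ⟨y, hy⟩) = τ y := rfl
    rw [h4] at h3
    rw [← h3]
    exact (AlgHom.restrictNormal (τ : AlgebraicClosure K →ₐ[K] AlgebraicClosure K) N ⟨y, hy⟩).2
  -- an element of order h
  obtain ⟨u, hu⟩ : ∃ u : (ZMod ℓ)ˣ, orderOf u = h := by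
    obtain ⟨g, hg⟩ := IsCyclic.exists_ofOrder_eq_natCard (α := (ZMod ℓ)ˣ)
    have hcard : Nat.card (ZMod ℓ)ˣ = ℓ - 1 := by
      rw [Nat.card_eq_fintype_card, ZMod.card_units]
    rw [hcard] at hg
    obtain ⟨k, hk⟩ := hdvd
    refine ⟨g ^ k, ?_⟩
    have hk0 : k ≠ 0 := by
      rintro rfl
      have := hℓ.two_le
      omega
    rw [orderOf_pow_of_dvd hk0 (by rw [hg, hk]; exact dvd_mul_left _ _), hg, hk,
      Nat.mul_div_cancel _ (Nat.pos_of_ne_zero hk0)]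
  set a : ℕ → ℕ := fun j => ((u ^ j : (ZMod ℓ)ˣ) : ZMod ℓ).val with ha
  have hacast : ∀ j, ((a j : ℕ) : ZMod ℓ) = ((u ^ j : (ZMod ℓ)ˣ) : ZMod ℓ) := fun j =>
    ZMod.natCast_zmod_val _
  have hx : ∀ j, ∃ x ∈ N, x ^ ℓ = ∏ i ∈ Finset.range h, (σ ^ i) c ^ (a j ^ (h - i)) := by
    intro j
    apply hcon
    · rw [← ZMod.natCast_eq_zero_iff, hacast]
      exact Units.ne_zero _
    · rw [← ZMod.natCast_eq_natCast_iff]
      push_cast
      rw [hacast, ← Units.val_pow_eq_pow_val, ← pow_mul, mul_comm, pow_mul, ← hu, pow_orderOf_eq_one,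
        one_pow, Units.val_one]
  choose x hxN hx using hx
  set E : ℕ → ℕ := fun i => ∑ j ∈ Finset.range h, a j ^ (h - i) with hE
  have hprod : (∏ j ∈ Finset.range h, x j) ^ ℓ = ∏ i ∈ Finset.range h, (σ ^ i) c ^ E i := by
    rw [← Finset.prod_pow, Finset.prod_congr rfl fun j _ => hx j, Finset.prod_comm]
    apply Finset.prod_congr rfl
    intro i _
    rw [Finset.prod_pow_eq_pow_sum]
  have hEcast : ∀ i, ((E i : ℕ) : ZMod ℓ) =
      ∑ j ∈ Finset.range h, ((u ^ (h - i) : (ZMod ℓ)ˣ) : ZMod ℓ) ^ j := by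
    intro i
    rw [hE]
    push_cast
    apply Finset.sum_congr rfl
    intro j _
    rw [hacast, Units.val_pow_eq_pow_val, ← pow_mul, ← pow_mul, mul_comm]
  have hE0 : ((E 0 : ℕ) : ZMod ℓ) = h := by
    rw [hEcast, Nat.sub_zero, ← hu, pow_orderOf_eq_one]
    simp
  have hEi : ∀ i ∈ Finset.range h, i ≠ 0 → ℓ ∣ E i := by
    intro i hi hi0
    rw [← ZMod.natCast_eq_zero_iff, hEcast]
    have hi' := Finset.mem_range.1 hi
    have hne : ((u ^ (h - i) : (ZMod ℓ)ˣ) : ZMod ℓ) ≠ 1 := by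
      intro h1
      have h2 : u ^ (h - i) = 1 := Units.ext (by rw [h1, Units.val_one])
      have h3 := orderOf_dvd_of_pow_eq_one h2
      rw [hu] at h3
      have h4 := Nat.le_of_dvd (by omega) h3
      omega
    have h1 := geom_sum_mul (((u ^ (h - i) : (ZMod ℓ)ˣ) : ZMod ℓ)) h
    rw [← Units.val_pow_eq_pow_val, ← pow_mul, mul_comm (h - i) h, pow_mul, ← hu, pow_orderOf_eq_one,
      one_pow, Units.val_one, sub_self, hu] at h1
    rcases mul_eq_zero.1 h1 with h2 | h2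
    · exact h2
    · exact absurd (sub_eq_zero.1 h2) hne
  -- split the product
  obtain ⟨k, rfl⟩ : ∃ k, h = k + 1 := ⟨h - 1, by omega⟩
  rw [Finset.prod_range_succ' (fun i => (σ ^ i) c ^ E i)] at hprod
  set y : AlgebraicClosure K := (∏ j ∈ Finset.range (k + 1), x j) /
    ∏ i ∈ Finset.range k, (σ ^ (i + 1)) c ^ (E (i + 1) / ℓ) with hy
  have hden : (∏ i ∈ Finset.range k, (σ ^ (i + 1)) c ^ (E (i + 1) / ℓ)) ^ ℓ =
      ∏ i ∈ Finset.range k, (σ ^ (i + 1)) c ^ E (i + 1) := by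
    rw [← Finset.prod_pow]
    apply Finset.prod_congr rfl
    intro i hi
    rw [← pow_mul, Nat.div_mul_cancel]
    exact hEi (i + 1) (Finset.mem_range.2 (by have := Finset.mem_range.1 hi; omega)) (by omega)
  have hden0 : ∏ i ∈ Finset.range k, (σ ^ (i + 1)) c ^ E (i + 1) ≠ 0 := by
    refine Finset.prod_ne_zero_iff.2 fun i _ => pow_ne_zero _ ?_
    exact (_root_.map_ne_zero _).2 hc0
  have hyN : y ∈ N := by
    refine N.div_mem (prod_mem fun j _ => hxN j) (prod_mem fun i _ => pow_mem (hN _ _ hcN) _)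
  have hyℓ : y ^ ℓ = c ^ E 0 := by
    rw [hy, div_pow, hden, hprod, mul_div_assoc, mul_comm, div_mul_cancel₀]
    · rfl
    · exact hden0
  have hcop : Nat.Coprime (E 0) ℓ := by
    rw [Nat.coprime_comm, hℓ.coprime_iff_not_dvd, ← ZMod.natCast_eq_zero_iff, hE0,
      ZMod.natCast_eq_zero_iff]
    intro h1
    have h2 := Nat.le_of_dvd (by omega) h1
    have h3 := Nat.le_of_dvd (by have := hℓ.two_le; omega) hdvd
    omega
  have hbez : (E 0 : ℤ) * Nat.gcdA (E 0) ℓ + (ℓ : ℤ) * Nat.gcdB (E 0) ℓ = 1 := by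
    have h3 := Nat.gcd_eq_gcd_ab (E 0) ℓ
    rw [Nat.Coprime.gcd_eq_one hcop] at h3
    exact_mod_cast h3.symm
  apply hc (y ^ Nat.gcdA (E 0) ℓ * c ^ Nat.gcdB (E 0) ℓ)
    (N.mul_mem (zpow_mem hyN _) (zpow_mem hcN _))
  rw [mul_pow, ← zpow_natCast, ← zpow_natCast, ← zpow_mul, ← zpow_mul,
    mul_comm (Nat.gcdA (E 0) ℓ), mul_comm (Nat.gcdB (E 0) ℓ), zpow_mul, zpow_natCast, hyℓ,
    ← zpow_natCast c, ← zpow_mul, ← zpow_add₀ hc0, hbez, zpow_one]

end Pool.Agent.U36.SD
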