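import Pool.Agent.U36.SD.Fin
import Pool.Agent.U913.SD.FM
import Pool.Agent.U103.SD.FIB
import Pool.Agent.U810.SD.EXT
import Pool.Agent.U535.SD.LC
import Pool.Agent.U83.SD.BC
import Pool.Agent.U637.SD.OP
import Pool.Agent.U99.SD.CNT
import Pool.Agent.U128.SD.FF
import Pool.Agent.U337.SD.MV
import Pool.Agent.U433.SD.DEN
import Pool.Agent.U61.SD.GEN
import Pool.Agent.U36.SD.GE
import Pool.Agent.U36.SD.C1b
import Pool.Agent.U324.SD.TR

/-!
Sections over `K` which are given locally by points: the main theorem.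
-/

set_option autoImplicit false
set_option linter.unusedSectionVars false
set_option linter.unusedVariables false

open NumberField Polynomial Pool.Agent.W401.Cheb IsDedekindDomain Filter Topology WithZero

namespace Pool.Agent.U36.SD

open Pool.Agent.TH954 Pool.Agent.U36.BA Pool.Agent.U36.CM Pool.Agent.U36.SC Pool.Agent.U36.DN

theorem all_FIB : S_FIB := Pool.Agent.U103.SD.t_FIB Pool.Agent.U337.SD.t_MV Pool.Agent.U637.SD.t_OP

theorem all_C1 : S_C1 := c1_of Pool.Agent.U637.SD.t_OP (t_C1B t_GE all_FIB Pool.Agent.U637.SD.t_OP)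

theorem all_CNT : S_CNT := Pool.Agent.U99.SD.t_CNT Pool.Agent.U637.SD.t_OP all_C1

theorem all_DEN : S_DEN := Pool.Agent.U433.SD.t_DEN Pool.Agent.U637.SD.t_OP all_CNT
  Pool.Agent.U128.SD.FF.t_FF

theorem all_GEN : S_GEN := Pool.Agent.U61.SD.t_GEN all_DEN

theorem all_BC : S_BC := Pool.Agent.U83.SD.BC.t_BC Pool.Agent.U810.SD.EXT.t_EXT

theorem main_all {K F M B : Type} [Field K] [NumberField K] [Field F] [Field M] [Field B]
    [Algebra K F] [Algebra F M] [Algebra K M] [IsScalarTower K F M] [Algebra K B]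
    [IsAlgClosure K B] [Algebra.IsAlgebraic F M]
    {U : Set (ValuationSubring F)} (hU : ∀ O ∈ U, ∀ c : K, algebraMap K F c ∈ O)
    (hR : ∀ z : M, z ≠ 0 → UnitOver U z → ∀ n : ℕ, 0 < n → ∃ ω : M, ω ^ n = z)
    (s : GalSection K F M B)
    (p : ∀ v : HeightOneSpectrum (𝓞 K), Plc K M (AlgebraicClosure (v.adicCompletion K)))
    (hp : ∀ v, s.GivenBy (v.adicCompletion K) (p v)) (hpU : ∀ v, PointOf U (p v))
    {z : M} (hz0 : z ≠ 0) (hz1 : 1 - z ≠ 0) (hz : UnitOver U z) (hz' : UnitOver U (1 - z)) :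
    KDZ ℚ {v : HeightOneSpectrum (𝓞 K) |
      ¬ ∃ ζ, (p v).val z ζ ∧ UnitAt v ζ ∧ UnitAt v (1 - ζ)} :=
  main_of Pool.Agent.U913.SD.t_FM all_GEN all_BC Pool.Agent.U324.SD.t_TR Pool.Agent.U535.SD.t_LC
    hU hR s p hp hpU hz0 hz1 hz hz'

end Pool.Agent.U36.SD
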