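import Pool.Agent.U36.SD.Near

/-!
Sections over `K` which are given locally by points: assembly.
-/

set_option autoImplicit false
set_option linter.unusedSectionVars false
set_option linter.unusedVariables false

open NumberField Polynomial Pool.Agent.W401.Cheb IsDedekindDomain Filter Topology WithZero

namespace Pool.Agent.U36.SD

open Pool.Agent.TH954 Pool.Agent.U36.BA Pool.Agent.U36.CM Pool.Agent.U36.SC Pool.Agent.U36.DN

section gen

variable {K F M B : Type} [Field K] [NumberField K] [Field F] [Field M] [Field B] [Algebra K F]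
    [Algebra F M] [Algebra K M] [IsScalarTower K F M] [Algebra K B] [IsAlgClosure K B]
    [Algebra.IsAlgebraic F M] (s : GalSection K F M B)

lemma unitOver_conj {U : Set (ValuationSubring F)} {z : M} (hz : UnitOver U z) (τ : M ≃ₐ[F] M) :
    UnitOver U (τ z) := by
  intro W hW
  have h1 : (W.comap ((τ : M →ₐ[F] M) : M →+* M)).comap (algebraMap F M) ∈ U := by
    have e : (W.comap ((τ : M →ₐ[F] M) : M →+* M)).comap (algebraMap F M) =
        W.comap (algebraMap F M) := by
      ext x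
      rw [ValuationSubring.mem_comap, ValuationSubring.mem_comap, ValuationSubring.mem_comap]
      change τ (algebraMap F M x) ∈ W ↔ _
      rw [τ.commutes]
    rw [e]
    exact hW
  obtain ⟨h2, h3⟩ := hz _ h1
  rw [ValuationSubring.mem_comap] at h2 h3
  refine ⟨h2, ?_⟩
  rw [← map_inv₀]
  exact h3

/-- the conjugates of an element -/
lemma exists_orbit (z : M) : ∃ A : Finset M, z ∈ A ∧ (∀ g, ∀ a ∈ A, s.s g a ∈ A) ∧
    ∀ a ∈ A, ∃ g, a = s.s g z := by
  classical
  have hfin : (Set.range fun g => s.s g z).Finite := by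
    have hz : IsIntegral F z := Algebra.IsIntegral.isIntegral z
    refine ((minpoly F z).rootSet_finite M).subset ?_
    rintro _ ⟨g, rfl⟩
    rw [mem_rootSet]
    refine ⟨minpoly.ne_zero hz, ?_⟩
    have h1 := Polynomial.aeval_algHom_apply ((s.s g : M ≃ₐ[F] M) : M →ₐ[F] M) z (minpoly F z)
    rw [minpoly.aeval, map_zero] at h1
    exact h1
  refine ⟨hfin.toFinset, ?_, ?_, ?_⟩
  · rw [hfin.mem_toFinset]
    refine ⟨1, ?_⟩
    change (s.s 1) z = z
    rw [map_one]
    rfl
  · intro g a ha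
    rw [hfin.mem_toFinset] at ha ⊢
    obtain ⟨g', rfl⟩ := ha
    refine ⟨g * g', ?_⟩
    simp only
    rw [map_mul]
    rfl
  · intro a ha
    rw [hfin.mem_toFinset] at ha
    obtain ⟨g, rfl⟩ := ha
    exact ⟨g, rfl⟩

variable {L F' : Type} [Field L] [NumberField L] [Algebra K L] [Algebra L B] [IsScalarTower K L B]
    [Field F'] [Algebra L F'] [Algebra F F'] [Algebra F' M] [IsScalarTower F F' M] [Algebra L M]
    [IsScalarTower L F' M] [IsScalarTower K L M]

theorem asm (hFM : S_FM) (hGEN : S_GEN) (hBC : S_BC) (hTR : S_TR)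
    {U : Set (ValuationSubring F)} (hU : ∀ O ∈ U, ∀ c : K, algebraMap K F c ∈ O)
    (hR : ∀ z : M, z ≠ 0 → UnitOver U z → ∀ n : ℕ, 0 < n → ∃ ω : M, ω ^ n = z)
    (hL : ∀ x : L, algebraMap L M x = s.j (algebraMap L B x))
    (hF' : ∀ (g : B ≃ₐ[L] B) (y : F'), s.s (g.restrictScalars K) (algebraMap F' M y) =
      algebraMap F' M y)
    (p : ∀ v : HeightOneSpectrum (𝓞 K), Plc K M (AlgebraicClosure (v.adicCompletion K)))
    (hp : ∀ v, s.GivenBy (v.adicCompletion K) (p v)) (hpU : ∀ v, PointOf U (p v))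
    {z : M} (hz0 : z ≠ 0) (hz1 : 1 - z ≠ 0) (hz : UnitOver U z) (hz' : UnitOver U (1 - z))
    (hfix : ∀ (g0 : B ≃ₐ[K] B) (g : B ≃ₐ[L] B),
      s.s (g.restrictScalars K) (s.s g0 z) = s.s g0 z) :
    KDZ ℚ {v : HeightOneSpectrum (𝓞 K) |
      ¬ ∃ ζ, (p v).val z ζ ∧ UnitAt v ζ ∧ UnitAt v (1 - ζ)} := by
  classical
  obtain ⟨s', hs', hq'⟩ := hBC K F M B s L F' hL hF'
  choose q g φ hq hφ hW hval using hq' p hp
  have hBL : IsAlgClosure L B := by
    have h1 : IsAlgClosed B := IsAlgClosure.isAlgClosed K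
    have h2 : Algebra.IsAlgebraic K B := IsAlgClosure.isAlgebraic
    exact ⟨h1, Algebra.IsAlgebraic.tower_top (K := K) L⟩
  have hMF' : Algebra.IsAlgebraic F' M := Algebra.IsAlgebraic.tower_top (K := F) F'
  set U' : Set (ValuationSubring F') := {O | O.comap (algebraMap F F') ∈ U} with hU'
  have hcomap : ∀ W : ValuationSubring M, (W.comap (algebraMap F' M)).comap (algebraMap F F') =
      W.comap (algebraMap F M) := by
    intro W
    ext x
    rw [ValuationSubring.mem_comap, ValuationSubring.mem_comap, ValuationSubring.mem_comap,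
      ← IsScalarTower.algebraMap_apply]
  have hUU : ∀ x : M, UnitOver U x ↔ UnitOver U' x := by
    intro x
    constructor
    · intro h W hW
      apply h
      rw [← hcomap]
      exact hW
    · intro h W hW
      apply h
      change (W.comap (algebraMap F' M)).comap (algebraMap F F') ∈ U
      rw [hcomap]
      exact hW
  have hU'L : ∀ O ∈ U', ∀ c : L, algebraMap L F' c ∈ O := by
    intro O hO c
    have hc : IsIntegral K c := Algebra.IsIntegral.isIntegral c
    -- the constants of K lie in O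
    have hKO : ∀ a : K, algebraMap L F' (algebraMap K L a) ∈ O := by
      intro a
      have h1 := hU _ hO a
      rw [ValuationSubring.mem_comap] at h1
      have h2 : algebraMap F F' (algebraMap K F a) = algebraMap L F' (algebraMap K L a) := by
        apply (algebraMap F' M).injective
        rw [← IsScalarTower.algebraMap_apply F F' M, ← IsScalarTower.algebraMap_apply K F M,
          ← IsScalarTower.algebraMap_apply L F' M, ← IsScalarTower.algebraMap_apply K L M]
      rwa [h2] at h1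
    obtain ⟨P, hP, hPc⟩ := hc
    have hint : IsIntegral O (algebraMap L F' c) := by
      refine ⟨P.map ((((algebraMap L F').comp (algebraMap K L)).codRestrict O.toSubring hKO) :
        K →+* O), hP.map _, ?_⟩
      rw [eval₂_map]
      have h3 := congrArg (algebraMap L F') hPc
      rw [map_zero, hom_eval₂] at h3
      exact h3
    obtain ⟨y, hy⟩ := IsIntegrallyClosed.isIntegral_iff.1 hint
    rw [← hy]
    exact y.2
  have hR' : ∀ z : M, z ≠ 0 → UnitOver U' z → ∀ n : ℕ, 0 < n → ∃ ω : M, ω ^ n = z :=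
    fun z hz hzU => hR z hz ((hUU z).2 hzU)
  have hqU : ∀ w, PointOf U' (q w) := by
    intro w
    rcases hpU (w.under (𝓞 K)) with h | h
    · left
      rw [eq_top_iff]
      intro x _
      have h1 := (hW w ((s.s (g w)).symm x)).1 (by rw [h]; trivial)
      rwa [AlgEquiv.apply_symm_apply] at h1
    · right
      change ((q w).W.comap (algebraMap F' M)).comap (algebraMap F F') ∈ U
      rw [hcomap]
      have h1 : (q w).W.comap (algebraMap F M) = (p (w.under (𝓞 K))).W.comap (algebraMap F M) := by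
        ext x
        rw [ValuationSubring.mem_comap, ValuationSubring.mem_comap, hW w, AlgEquiv.commutes]
      rw [h1]
      exact h
  -- the conjugates
  obtain ⟨A, hzA, hA, hA'⟩ := exists_orbit s z
  have hAu : ∀ a ∈ A, a ∈ units U' s' ∧ 1 - a ∈ units U' s' := by
    intro a ha
    obtain ⟨g0, rfl⟩ := hA' a ha
    have h1 : 1 - s.s g0 z = s.s g0 (1 - z) := by rw [map_sub, map_one]
    refine ⟨⟨(_root_.map_ne_zero _).2 hz0, fun g => ?_, (hUU _).1 (unitOver_conj hz _)⟩,
      ⟨?_, fun g => ?_, ?_⟩⟩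
    · rw [hs', hfix]
    · rw [h1]
      exact (_root_.map_ne_zero _).2 hz1
    · rw [map_sub, map_one, hs', hfix]
    · rw [h1]
      exact (hUU _).1 (unitOver_conj hz' _)
  have hx : ∀ a : M, ∀ w : HeightOneSpectrum (𝓞 L), ∃ x : w.adicCompletion L, a ∈ A →
      (q w).val a (algebraMap (w.adicCompletion L) (AlgebraicClosure (w.adicCompletion L)) x) := by
    intro a w
    by_cases ha : a ∈ A
    · obtain ⟨x, -, hx⟩ := val_unit s' q hq hqU (hAu a ha).1 w
      exact ⟨x, fun _ => hx⟩
    · exact ⟨0, fun h => absurd h ha⟩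
  choose x hx using hx
  have hbad : KDZ ℚ (⋃ a ∈ A, {w : HeightOneSpectrum (𝓞 L) | Valued.v (x a w) ≠ 1 ∨
      Valued.v (1 - x a w) ≠ 1}) :=
    KDZ.biUnion A _ fun a ha => integral_dens' hU'L hR' s' q hq hqU ℚ hFM hGEN (hAu a ha).1
      (hAu a ha).2 (x a) fun w => hx a w ha
  refine DZ.mono hbad ?_
  rintro u ⟨v, hv, hvu⟩
  rw [Set.mem_ofPred_eq] at hv
  -- a place above
  obtain ⟨w, rfl⟩ : ∃ w : HeightOneSpectrum (𝓞 L), w.under (𝓞 K) = v := by
    obtain ⟨Q, hQ, hQv⟩ := Ideal.exists_ideal_over_maximal_of_isIntegral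
      (R := 𝓞 K) (S := 𝓞 L) v.asIdeal (by
        rw [(RingHom.injective_iff_ker_eq_bot _).1
          (FaithfulSMul.algebraMap_injective (𝓞 K) (𝓞 L))]
        exact bot_le)
    refine ⟨⟨Q, hQ.isPrime, ?_⟩, HeightOneSpectrum.ext hQv⟩
    rintro rfl
    apply v.ne_bot
    rw [← hQv, Ideal.comap_bot_of_injective _ (FaithfulSMul.algebraMap_injective (𝓞 K) (𝓞 L))]
  refine ⟨w, ?_, ?_⟩
  swap
  · rw [← hvu]
    change _ = Ideal.comap _ (Ideal.comap _ _)
    rw [Ideal.comap_comap]
    congr 1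
    apply RingHom.ext
    intro x
    apply RingOfIntegers.coe_injective
    change algebraMap ℚ L _ = algebraMap K L (algebraMap ℚ K _)
    rw [eq_ratCast, eq_ratCast, map_ratCast]
  by_contra hcon
  apply hv
  have hw : ∀ a ∈ A, Valued.v (x a w) = 1 ∧ Valued.v (1 - x a w) = 1 := by
    intro a ha
    by_contra hne
    apply hcon
    rw [Set.mem_iUnion₂]
    refine ⟨a, ha, ?_⟩
    rw [Set.mem_ofPred_eq]
    tauto
  have hmem : ∀ a ∈ A, a ∈ (p (w.under (𝓞 K))).W := by
    intro a ha
    rw [hW w]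
    exact (hx _ w (hA _ _ ha)).mem
  have hphi : ∀ a ∈ A, ∀ c, (p (w.under (𝓞 K))).val a c →
      φ w c = algebraMap (w.adicCompletion L) _ (x (s.s (g w) a) w) := by
    intro a ha c hc
    exact (hval w a c hc).unique (hx _ w (hA _ _ ha))
  obtain ⟨ζ, hζ⟩ := Plc.val_of_mem (hmem z hzA)
  refine ⟨ζ, hζ, ?_, ?_⟩
  · refine hTR K F M B L s w (p (w.under (𝓞 K))) (φ w) (hp _) (hφ w) A hA (fun a ha => ?_) z hzA ζ hζ
    obtain ⟨c, hc⟩ := Plc.val_of_mem (hmem a ha)
    exact ⟨c, _, hc, hphi a ha c hc, (hw _ (hA _ _ ha)).1⟩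
  · refine hTR K F M B L s w (p (w.under (𝓞 K))) (φ w) (hp _) (hφ w) (A.image fun a => 1 - a)
      (fun g' a ha => ?_) (fun a ha => ?_) (1 - z) (Finset.mem_image.2 ⟨z, hzA, rfl⟩) (1 - ζ)
      (Plc.val_one.sub hζ)
    · obtain ⟨b, hb, rfl⟩ := Finset.mem_image.1 ha
      rw [map_sub, map_one]
      exact Finset.mem_image.2 ⟨_, hA _ _ hb, rfl⟩
    · obtain ⟨b, hb, rfl⟩ := Finset.mem_image.1 ha
      obtain ⟨c, hc⟩ := Plc.val_of_mem (hmem b hb)
      refine ⟨1 - c, 1 - x (s.s (g w) b) w, Plc.val_one.sub hc, ?_, (hw _ (hA _ _ hb)).2⟩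
      rw [map_sub, map_one, hphi b hb c hc, map_sub, map_one]

end gen

end Pool.Agent.U36.SD
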