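import Pool.Agent.U36.SD.Stm

/-! Project SD: package C1, lower bound for the number of cosets -/

set_option autoImplicit false
set_option linter.unusedSectionVars false

open NumberField Polynomial IsDedekindDomain Pool.Agent.W401.Cheb

namespace Pool.Agent.U36.SD

open Pool.Agent.U36.DN

lemma totient_prod {A : Finset ℕ} (hA : ∀ ℓ ∈ A, ℓ.Prime) :
    (∏ ℓ ∈ A, ℓ).totient = ∏ ℓ ∈ A, (ℓ - 1) := by
  classical
  induction A using Finset.induction_on with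
  | empty => rw [Finset.prod_empty, Finset.prod_empty, Nat.totient_one]
  | insert q B hqB ih =>
    have hq := hA q (Finset.mem_insert_self q B)
    rw [Finset.prod_insert hqB, Finset.prod_insert hqB, Nat.totient_mul, Nat.totient_prime hq,
      ih fun x hx => hA x (Finset.mem_insert_of_mem hx)]
    rw [Nat.coprime_prod_right_iff]
    intro ℓ hℓ
    rw [Nat.coprime_primes hq (hA ℓ (Finset.mem_insert_of_mem hℓ))]
    rintro rfl
    exact hqB hℓ

theorem lowerHZ (hOP : S_OP) {K : Type} [Field K] [NumberField K]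
    (N : IntermediateField K (AlgebraicClosure K)) [FiniteDimensional K N] [Normal K N]
    (A : Finset ℕ) (hA : ∀ ℓ ∈ A, ℓ.Prime) (c : ℕ → AlgebraicClosure K) :
    (∏ ℓ ∈ A, (ℓ - 1)) * ((QuotientGroup.mk : GK K → GK K ⧸ US N A c) ''
      (HZ N (∏ ℓ ∈ A, ℓ) : Set (GK K))).ncard ≤
    Module.finrank ℚ K * Nat.card (GK K ⧸ US N A c) := by
  classical
  obtain ⟨hnorm, hopen, -⟩ := hOP K N A (fun ℓ hℓ => (hA ℓ hℓ).pos) c
  have hfin : Finite (GK K ⧸ US N A c) := Subgroup.quotient_finite_of_isOpen _ hopen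
  have hA0 : ∀ ℓ ∈ A, 0 < ℓ := fun ℓ hℓ => (hA ℓ hℓ).pos
  set n := ∏ ℓ ∈ A, ℓ with hn'
  have hn : 0 < n := Finset.prod_pos hA0
  have hn0 : NeZero n := ⟨hn.ne'⟩
  have hn1 : NeZero (n : AlgebraicClosure K) := ⟨Nat.cast_ne_zero.2 hn.ne'⟩
  obtain ⟨Z, hZ⟩ := HasEnoughRootsOfUnity.exists_primitiveRoot (AlgebraicClosure K) n
  have hint : IsIntegral K Z := Algebra.IsIntegral.isIntegral Z
  have hcard : Fintype.card ((minpoly K Z).rootSet (AlgebraicClosure K)) = (minpoly K Z).natDegree :=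
    card_rootSet_eq_natDegree (minpoly.irreducible hint).separable (IsAlgClosed.splits _)
  have hσ : ∀ z : (minpoly K Z).rootSet (AlgebraicClosure K), ∃ σ : GK K, σ Z = z.1 := by
    rintro ⟨z, hz⟩
    have h1 := (mem_rootSet.1 hz).2
    obtain ⟨σ, hσ⟩ := minpoly.exists_algEquiv_of_root' (Algebra.IsAlgebraic.isAlgebraic Z) h1
    exact ⟨σ, hσ⟩
  choose σ hσ using hσ
  -- US fixes Z
  have hUS : ∀ u ∈ US N A c, ∀ B : Finset ℕ, B ⊆ A → ∀ w : AlgebraicClosure K,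
      w ^ (∏ ℓ ∈ B, ℓ) = 1 → u w = w := by
    intro u hu B
    induction B using Finset.induction_on with
    | empty =>
      intro _ w hw
      rw [Finset.prod_empty, pow_one] at hw
      rw [hw, map_one]
    | insert q B hqB ih =>
      intro hsub w hw
      have hqA := hsub (Finset.mem_insert_self q B)
      have hcop : Nat.Coprime q (∏ ℓ ∈ B, ℓ) := by
        rw [Nat.coprime_prod_right_iff]
        intro ℓ hℓ
        rw [Nat.coprime_primes (hA q hqA) (hA ℓ (hsub (Finset.mem_insert_of_mem hℓ)))]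
        rintro rfl
        exact hqB hℓ
      rw [Finset.prod_insert hqB] at hw
      have e1 : u (w ^ q) = w ^ q := by
        apply ih fun x hx => hsub (Finset.mem_insert_of_mem hx)
        rw [← pow_mul]
        exact hw
      have e2 : u (w ^ (∏ ℓ ∈ B, ℓ)) = w ^ (∏ ℓ ∈ B, ℓ) := by
        apply (hu.2 q hqA).1
        rw [← pow_mul, mul_comm, hw]
      have hw0 : w ≠ 0 := by
        intro h0
        rw [h0, zero_pow] at hw
        · exact zero_ne_one hw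
        · exact (Nat.mul_pos (hA q hqA).pos (Finset.prod_pos fun ℓ hℓ =>
            (hA ℓ (hsub (Finset.mem_insert_of_mem hℓ))).pos)).ne'
      have hb := Nat.gcd_eq_gcd_ab q (∏ ℓ ∈ B, ℓ)
      rw [hcop.gcd_eq_one] at hb
      have e3 : w = (w ^ q) ^ (Nat.gcdA q (∏ ℓ ∈ B, ℓ)) * (w ^ (∏ ℓ ∈ B, ℓ)) ^ (Nat.gcdB q (∏ ℓ ∈ B, ℓ)) := by
        rw [← zpow_natCast w q, ← zpow_natCast w (∏ ℓ ∈ B, ℓ), ← zpow_mul, ← zpow_mul, ← zpow_add₀ hw0,
          ← hb, Nat.cast_one, zpow_one]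
      conv_lhs => rw [e3]
      rw [map_mul, map_zpow₀, map_zpow₀, e1, e2, ← e3]
  have hUSZ : ∀ u ∈ US N A c, u Z = Z := fun u hu =>
    hUS u hu A (Finset.Subset.refl A) Z hZ.pow_eq_one
  set T : Set (GK K ⧸ US N A c) := (QuotientGroup.mk : GK K → GK K ⧸ US N A c) ''
      (HZ N n : Set (GK K)) with hT
  have hinj : Function.Injective (fun x : ((minpoly K Z).rootSet (AlgebraicClosure K)) × T =>
      ((σ x.1 : GK K) : GK K ⧸ US N A c) * x.2.1) := by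
    rintro ⟨z, q, m, hm, rfl⟩ ⟨z', q', m', hm', rfl⟩ h
    simp only at h
    have h1 : ((σ z * m : GK K) : GK K ⧸ US N A c) = ((σ z' * m' : GK K) : GK K ⧸ US N A c) := h
    rw [QuotientGroup.eq] at h1
    have h2 := hUSZ _ h1
    have h3 := congrArg (σ z * m) h2
    rw [← AlgEquiv.mul_apply, mul_inv_cancel_left, AlgEquiv.mul_apply, AlgEquiv.mul_apply,
      hm.2 Z hZ.pow_eq_one, hm'.2 Z hZ.pow_eq_one, hσ, hσ] at h3
    have h4 : z = z' := Subtype.ext h3.symm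
    subst h4
    have h5 : ((m : GK K) : GK K ⧸ US N A c) = ((m' : GK K) : GK K ⧸ US N A c) := mul_left_cancel h
    refine Prod.ext rfl (Subtype.ext h5)
  have hle := Nat.card_le_card_of_injective _ hinj
  rw [Nat.card_prod, Nat.card_eq_fintype_card, hcard] at hle
  have h10 := cyc_deg n hn Z hZ
  rw [totient_prod hA] at h10
  have hTc : Nat.card T = T.ncard := rfl
  rw [hTc] at hle
  calc (∏ ℓ ∈ A, (ℓ - 1)) * T.ncard ≤ (Module.finrank ℚ K * (minpoly K Z).natDegree) * T.ncard :=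
        Nat.mul_le_mul_right _ h10
    _ = Module.finrank ℚ K * ((minpoly K Z).natDegree * T.ncard) := by ring
    _ ≤ _ := Nat.mul_le_mul_left _ hle

/-- C1B: the upper bound -/
def S_C1B : Prop :=
  ∀ (K : Type) [Field K] [NumberField K] (N : IntermediateField K (AlgebraicClosure K))
    [FiniteDimensional K N] [Normal K N] (A : Finset ℕ), (∀ ℓ ∈ A, ℓ.Prime) →
    (∀ ℓ ∈ A, Module.finrank ℚ K * Module.finrank K N + 1 < ℓ) →
    (∀ ℓ ∈ A, Module.finrank K N ∣ ℓ - 1) →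
    ∀ c : ℕ → AlgebraicClosure K, (∀ ℓ ∈ A, c ℓ ∈ N ∧ ∀ x ∈ N, x ^ ℓ ≠ c ℓ) →
      (((QuotientGroup.mk : GK K → GK K ⧸ US N A c) '' CO A c (Module.finrank K N)).ncard : ℝ) ≤
      (Module.finrank K N : ℝ) * (∏ ℓ ∈ A, (((ℓ : ℝ) - 1) ^ 2 / ℓ)) *
        (((QuotientGroup.mk : GK K → GK K ⧸ US N A c) ''
          (HZ N (∏ ℓ ∈ A, ℓ) : Set (GK K))).ncard : ℝ)

theorem c1_of (hOP : S_OP) (hB : S_C1B) : S_C1 := by
  intro K _ _ N _ _ A hA hd hdvd c hc
  obtain ⟨hnorm, hopen, -⟩ := hOP K N A (fun ℓ hℓ => (hA ℓ hℓ).pos) c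
  have hfin : Finite (GK K ⧸ US N A c) := Subgroup.quotient_finite_of_isOpen _ hopen
  have h1 := hB K N A hA hd hdvd c hc
  have h2 := lowerHZ hOP N A hA c
  have h2' : (∏ ℓ ∈ A, ((ℓ : ℝ) - 1)) * (((QuotientGroup.mk : GK K → GK K ⧸ US N A c) ''
      (HZ N (∏ ℓ ∈ A, ℓ) : Set (GK K))).ncard : ℝ) ≤
      (Module.finrank ℚ K : ℝ) * Nat.card (GK K ⧸ US N A c) := by
    have h' : (((∏ ℓ ∈ A, (ℓ - 1)) * ((QuotientGroup.mk : GK K → GK K ⧸ US N A c) ''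
      (HZ N (∏ ℓ ∈ A, ℓ) : Set (GK K))).ncard : ℕ) : ℝ) ≤
        ((Module.finrank ℚ K * Nat.card (GK K ⧸ US N A c) : ℕ) : ℝ) := by exact_mod_cast h2
    rw [Nat.cast_mul, Nat.cast_mul, Nat.cast_prod] at h'
    refine le_trans (le_of_eq ?_) h'
    congr 1
    apply Finset.prod_congr rfl
    intro ℓ hℓ
    rw [Nat.cast_sub (hA ℓ hℓ).one_lt.le, Nat.cast_one]
  have h3 : 0 < ∏ ℓ ∈ A, ((ℓ : ℝ) - 1) := by
    apply Finset.prod_pos
    intro ℓ hℓ
    have : (1 : ℝ) < ℓ := by exact_mod_cast (hA ℓ hℓ).one_lt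
    linarith
  have h5 : (0 : ℝ) < Nat.card (GK K ⧸ US N A c) := by exact_mod_cast Nat.card_pos
  rw [div_le_iff₀ h5]
  refine h1.trans ?_
  have h6 : ∏ ℓ ∈ A, (((ℓ : ℝ) - 1) ^ 2 / ℓ) = (∏ ℓ ∈ A, ((ℓ : ℝ) - 1)) *
      ∏ ℓ ∈ A, (((ℓ : ℝ) - 1) / ℓ) := by
    rw [← Finset.prod_mul_distrib]
    apply Finset.prod_congr rfl
    intro ℓ _
    ring
  have h7 : 0 ≤ ∏ ℓ ∈ A, (((ℓ : ℝ) - 1) / ℓ) := by
    apply Finset.prod_nonneg
    intro ℓ hℓ
    have h4 : (1 : ℝ) ≤ ℓ := by exact_mod_cast (hA ℓ hℓ).one_lt.le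
    exact div_nonneg (by linarith) (by linarith)
  rw [h6]
  calc (Module.finrank K N : ℝ) * ((∏ ℓ ∈ A, ((ℓ : ℝ) - 1)) * ∏ ℓ ∈ A, (((ℓ : ℝ) - 1) / ℓ)) *
        (((QuotientGroup.mk : GK K → GK K ⧸ US N A c) ''
          (HZ N (∏ ℓ ∈ A, ℓ) : Set (GK K))).ncard : ℝ) =
      (Module.finrank K N : ℝ) * (∏ ℓ ∈ A, (((ℓ : ℝ) - 1) / ℓ)) * ((∏ ℓ ∈ A, ((ℓ : ℝ) - 1)) *
        (((QuotientGroup.mk : GK K → GK K ⧸ US N A c) ''
          (HZ N (∏ ℓ ∈ A, ℓ) : Set (GK K))).ncard : ℝ)) := by ring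
    _ ≤ (Module.finrank K N : ℝ) * (∏ ℓ ∈ A, (((ℓ : ℝ) - 1) / ℓ)) *
        ((Module.finrank ℚ K : ℝ) * Nat.card (GK K ⧸ US N A c)) :=
        mul_le_mul_of_nonneg_left h2' (by positivity)
    _ = _ := by ring

end Pool.Agent.U36.SD
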