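import Pool.Agent.U36.SD.Asm

/-!
Sections over `K` which are given locally by points: the main theorem from the packages.
-/

set_option autoImplicit false
set_option linter.unusedSectionVars false
set_option linter.unusedVariables false

open NumberField Polynomial Pool.Agent.W401.Cheb IsDedekindDomain Filter Topology WithZero

namespace Pool.Agent.U36.SD

open Pool.Agent.TH954 Pool.Agent.U36.BA Pool.Agent.U36.CM Pool.Agent.U36.SC Pool.Agent.U36.DN

theorem main_of (hFM : S_FM) (hGEN : S_GEN) (hBC : S_BC) (hTR : S_TR) (hLC : S_LC)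
    {K F M B : Type} [Field K] [NumberField K] [Field F] [Field M] [Field B] [Algebra K F]
    [Algebra F M] [Algebra K M] [IsScalarTower K F M] [Algebra K B] [IsAlgClosure K B]
    [Algebra.IsAlgebraic F M]
    {U : Set (ValuationSubring F)} (hU : ∀ O ∈ U, ∀ c : K, algebraMap K F c ∈ O)
    (hR : ∀ z : M, z ≠ 0 → UnitOver U z → ∀ n : ℕ, 0 < n → ∃ ω : M, ω ^ n = z)
    (s : GalSection K F M B)
    (p : ∀ v : HeightOneSpectrum (𝓞 K), Plc K M (AlgebraicClosure (v.adicCompletion K)))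
    (hp : ∀ v, s.GivenBy (v.adicCompletion K) (p v)) (hpU : ∀ v, PointOf U (p v))
    {z : M} (hz0 : z ≠ 0) (hz1 : 1 - z ≠ 0) (hz : UnitOver U z) (hz' : UnitOver U (1 - z)) :
    KDZ ℚ {v : HeightOneSpectrum (𝓞 K) |
      ¬ ∃ ζ, (p v).val z ζ ∧ UnitAt v ζ ∧ UnitAt v (1 - ζ)} := by
  classical
  obtain ⟨L, hfd, hnorm, hLz⟩ := hLC K F M B s z
  have hcB : CharZero B := charZero_of_injective_algebraMap (algebraMap K B).injective
  have hfdQ : FiniteDimensional ℚ L := FiniteDimensional.trans ℚ K L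
  have hNF : NumberField L := ⟨⟩
  set S : Set M := Set.range fun x : L => s.j (x : B) with hS
  let F' : IntermediateField F M := IntermediateField.adjoin F S
  have hmem : ∀ x : L, s.j (x : B) ∈ F' := fun x => IntermediateField.subset_adjoin F S ⟨x, rfl⟩
  let aLM : Algebra L M := ((s.j : B →+* M).comp L.val.toRingHom).toAlgebra
  let aLF : Algebra L F' := (((s.j : B →+* M).comp L.val.toRingHom).codRestrict F'.toSubring hmem :
    L →+* F').toAlgebra
  have t1 : IsScalarTower L F' M := IsScalarTower.of_algebraMap_eq fun x => rfl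
  have t2 : IsScalarTower K L M := IsScalarTower.of_algebraMap_eq fun x => by
    change algebraMap K M x = s.j (algebraMap K B x)
    rw [s.j.commutes]
  refine asm (K := K) (F := F) (M := M) (B := B) (L := L) (F' := F') s hFM hGEN hBC hTR hU
    hR (fun x => rfl) ?_ p hp hpU hz0 hz1 hz hz' ?_
  · intro g y
    have key : ∀ y ∈ F', s.s (g.restrictScalars K) y = y := by
      intro y hy
      induction hy using IntermediateField.adjoin_induction with
      | mem x hx =>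
        obtain ⟨x, rfl⟩ := hx
        simp only
        rw [s.sec]
        congr 1
        exact g.commutes x
      | algebraMap x => exact AlgEquiv.commutes _ x
      | add x y _ _ h1 h2 => rw [map_add, h1, h2]
      | mul x y _ _ h1 h2 => rw [map_mul, h1, h2]
      | inv x _ h1 => rw [map_inv₀, h1]
    exact key y.1 y.2
  · intro g0 g
    have h1 : s.s (g0⁻¹ * g.restrictScalars K * g0) z = z := by
      apply hLz
      intro x hx
      have h2 : g0 x ∈ L := by
        have h3 := (AlgHom.restrictNormal_commutes (g0 : B →ₐ[K] B) L ⟨x, hx⟩)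
        have h4 : (g0 : B →ₐ[K] B) (algebraMap L B ⟨x, hx⟩) = g0 x := rfl
        rw [h4] at h3
        rw [← h3]
        exact (AlgHom.restrictNormal (g0 : B →ₐ[K] B) L ⟨x, hx⟩).2
      have h5 : (g.restrictScalars K) (g0 x) = g0 x := g.commutes ⟨g0 x, h2⟩
      rw [AlgEquiv.mul_apply, AlgEquiv.mul_apply, h5, ← AlgEquiv.mul_apply, inv_mul_cancel]
      rfl
    rw [map_mul, map_mul, AlgEquiv.mul_apply, AlgEquiv.mul_apply] at h1
    have h6 := congrArg (s.s g0) h1
    rw [← AlgEquiv.mul_apply, ← map_mul, mul_inv_cancel, map_one] at h6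
    exact h6

/-- rational primes -/
theorem primes_of {K : Type} [Field K] [NumberField K] {S : Set (HeightOneSpectrum (𝓞 K))}
    (h : KDZ ℚ S) :
    Tendsto (fun n : ℕ => ({p : ℕ | p ≤ n ∧ p.Prime ∧ ∃ v ∈ S, (p : 𝓞 K) ∈ v.asIdeal}.ncard : ℝ) /
      (Nat.primeCounting n : ℝ)) atTop (𝓝 0) := by
  classical
  refine tendsto_of_tendsto_of_tendsto_of_le_of_le tendsto_const_nhds h
    (fun n => by positivity) fun n => ?_
  simp only
  rw [dens_eq]
  apply div_le_div_of_nonneg_right _ (Nat.cast_nonneg _)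
  have hch : ∀ p : ℕ, ∃ u : HeightOneSpectrum (𝓞 ℚ),
      (p.Prime ∧ ∃ v ∈ S, (p : 𝓞 K) ∈ v.asIdeal) → (p : 𝓞 ℚ) ∈ u.asIdeal ∧
        ∃ v ∈ S, v.asIdeal.comap (algebraMap (𝓞 ℚ) (𝓞 K)) = u.asIdeal := by
    intro p
    by_cases hp : p.Prime ∧ ∃ v ∈ S, (p : 𝓞 K) ∈ v.asIdeal
    · obtain ⟨hp, v, hv, hpv⟩ := hp
      refine ⟨v.under (𝓞 ℚ), fun _ => ⟨?_, v, hv, rfl⟩⟩
      change (p : 𝓞 ℚ) ∈ v.asIdeal.comap (algebraMap (𝓞 ℚ) (𝓞 K))
      rw [Ideal.mem_comap, map_natCast]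
      exact hpv
    · obtain ⟨u⟩ := Pool.Agent.U36.DN.exists_place ℚ
      exact ⟨u, fun h => absurd h hp⟩
  choose f hf using hch
  have h1 : {p : ℕ | p ≤ n ∧ p.Prime ∧ ∃ v ∈ S, (p : 𝓞 K) ∈ v.asIdeal}.ncard ≤
      {u : HeightOneSpectrum (𝓞 ℚ) | Ideal.absNorm u.asIdeal ≤ n ∧
        u ∈ {v | ∃ w ∈ S, w.asIdeal.comap (algebraMap (𝓞 ℚ) (𝓞 K)) = v.asIdeal}}.ncard := by
    refine Set.ncard_le_ncard_of_injOn f ?_ ?_ ((finite_norm_le n).subset fun v hv => hv.1)
    · rintro p ⟨hpn, hp, hpS⟩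
      obtain ⟨h2, h3⟩ := hf p ⟨hp, hpS⟩
      refine ⟨?_, h3⟩
      refine le_trans ?_ hpn
      have h4 : Ideal.absNorm (f p).asIdeal ∣ Ideal.absNorm (Ideal.span {(p : 𝓞 ℚ)}) :=
        Ideal.absNorm_dvd_absNorm_of_le ((Ideal.span_singleton_le_iff_mem _).2 h2)
      rw [Ideal.absNorm_span_natCast, RingOfIntegers.rank, Module.finrank_self, pow_one] at h4
      exact Nat.le_of_dvd hp.pos h4
    · rintro p ⟨_, hp, hpS⟩ q ⟨_, hq, hqS⟩ hpq
      by_contra hne
      obtain ⟨h2, -⟩ := hf p ⟨hp, hpS⟩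
      obtain ⟨h3, -⟩ := hf q ⟨hq, hqS⟩
      rw [← hpq] at h3
      have hb := Nat.gcd_eq_gcd_ab p q
      rw [(Nat.coprime_primes hp hq).2 hne] at hb
      apply (f p).isPrime.ne_top
      rw [Ideal.eq_top_iff_one]
      have h5 : (1 : 𝓞 ℚ) = (p : 𝓞 ℚ) * (Nat.gcdA p q : 𝓞 ℚ) + (q : 𝓞 ℚ) * (Nat.gcdB p q : 𝓞 ℚ) := by
        exact_mod_cast congrArg (Int.cast : ℤ → 𝓞 ℚ) hb
      rw [h5]
      exact (f p).asIdeal.add_mem ((f p).asIdeal.mul_mem_right _ h2)
        ((f p).asIdeal.mul_mem_right _ h3)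
  exact_mod_cast h1

end Pool.Agent.U36.SD
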