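import Pool.Agent.U36.SD.Far

/-!
Sections over `L` which are given locally by points: the places of `K` below the places where a unit `z`,
with `1 - z` a unit, is not integral.
-/

set_option autoImplicit false
set_option linter.unusedSectionVars false
set_option linter.unusedVariables false

open NumberField Polynomial Pool.Agent.W401.Cheb IsDedekindDomain Filter Topology WithZero

namespace Pool.Agent.U36.SD

open Pool.Agent.TH954 Pool.Agent.U36.BA Pool.Agent.U36.CM Pool.Agent.U36.SC Pool.Agent.U36.DN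

section

variable {L : Type} [Field L] [NumberField L]

/-- **Points near the removed closed points.** -/
theorem near_gen' (K : Type) [Field K] [NumberField K] [Algebra K L] (hFM : S_FM) (hGEN : S_GEN)
    {I : Type} [Fintype I] [DecidableEq I] (P : I → (𝓞 L)[X]) (hP : ∀ i, (P i).Monic)
    (hdeg : ∀ i, 0 < (P i).natDegree)
    (hcop : ∀ i j, i ≠ j → IsCoprime ((P i).map (algebraMap (𝓞 L) L)) ((P j).map (algebraMap (𝓞 L) L)))
    (w : ∀ v : HeightOneSpectrum (𝓞 L), v.adicCompletion L)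
    (hkum : ∀ i, ∀ ℓ : ℕ, 1 ≤ ℓ → ∃ b : L, b ≠ 0 ∧ ∀ v, ∃ u : v.adicCompletion L, u ≠ 0 ∧
      ev (P i) v (w v) = algebraMap L (v.adicCompletion L) b * u ^ ℓ)
    (i0 : I) (hI : Enough L (Fintype.card {j : I // j ≠ i0})) :
    KDZ K {v : HeightOneSpectrum (𝓞 L) | Valued.v (w v) ≤ 1 ∧ Valued.v (ev (P i0) v (w v)) < 1} := by
  classical
  by_contra hnd
  have hne : ∀ i v, ev (P i) v (w v) ≠ 0 := by
    intro i v
    obtain ⟨b, hb, h⟩ := hkum i 1 le_rfl
    obtain ⟨u, hu, h1⟩ := h v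
    rw [h1]
    exact mul_ne_zero ((_root_.map_ne_zero _).2 hb) (pow_ne_zero _ hu)
  have hfar : ∀ j, j ≠ i0 → {v : HeightOneSpectrum (𝓞 L) | Valued.v (ev (P j) v (w v)) ≠ 1}.Finite :=
    fun j hj => far' K hFM hGEN (hP i0) (hcop i0 j hj.symm) w (hkum j) _ (fun v hv => hv) hnd
  have hhyp : ∀ j : {j : I // j ≠ i0}, ∃ B : ℕ, ∀ B', B ≤ B' → Hyp (fun v => ev (P j) v (w v)) B' :=
    fun j => exists_hyp _ (hne j) (hfar j.1 j.2) (hkum j)
  choose B hB using hhyp
  obtain ⟨Q, hQ, hQw⟩ := core_pol hI (fun j => (P j.1).map (algebraMap (𝓞 L) L))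
    (fun j => (hP j.1).map _) (fun j => by
      rw [(hP j.1).natDegree_map]
      exact hdeg j.1)
    (fun j k hjk => hcop j.1 k.1 fun h => hjk (Subtype.ext h)) w (∑ j, B j) fun j =>
      hB j _ (Finset.single_le_sum (f := B) (fun _ _ => Nat.zero_le _) (Finset.mem_univ j))
  apply hnd
  apply KDZ.finite
  exact finite_near ((hP i0).map _).ne_zero w (fun v => hne i0 v) _ Q le_rfl hQ.ne_zero hQw

end

variable {L : Type} [Field L] [NumberField L] {F M B : Type} [Field F] [Field M] [Field B]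
  [Algebra L F] [Algebra F M] [Algebra L M] [Algebra L B] [IsScalarTower L F M]
  [IsAlgClosure L B] [Algebra.IsAlgebraic F M]
  {U : Set (ValuationSubring F)} (hU : ∀ O ∈ U, ∀ c : L, algebraMap L F c ∈ O)
  (hR : ∀ z : M, z ≠ 0 → UnitOver U z → ∀ n : ℕ, 0 < n → ∃ ω : M, ω ^ n = z)
  (s : GalSection L F M B)
  (p : ∀ v : HeightOneSpectrum (𝓞 L), Plc L M (AlgebraicClosure (v.adicCompletion L)))
  (hp : ∀ v, s.GivenBy (v.adicCompletion L) (p v)) (hpU : ∀ v, PointOf U (p v))

include hU hR in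
/-- Kummer classes of units -/
lemma kum_unit' {z : M} (hz : z ∈ units U s) (n : ℕ) (hn : 0 < n) :
    ∃ (b : L) (w : M), b ≠ 0 ∧ w ∈ units U s ∧ z = algebraMap L M b * w ^ n := by
  obtain ⟨ω, hω⟩ := hR z hz.1 hz.2.2 n hn
  obtain ⟨b, w, hb, hw, h⟩ := exists_kum s z hz.1 hz.2.1 n hn ω hω
  have hbM : algebraMap L M b ≠ 0 := (_root_.map_ne_zero _).2 hb
  refine ⟨b, w, hb, units_of_pow s hn (units_mul s (units_inv s (const_unit hU s hb)) hz) ?_ hw, h⟩
  conv_rhs => rw [h]
  rw [← mul_assoc, inv_mul_cancel₀ hbM, one_mul]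

include hU hR hp hpU in
/-- local Kummer classes of units -/
lemma kum_loc' {z : M} (hz : z ∈ units U s) (x : ∀ v : HeightOneSpectrum (𝓞 L), v.adicCompletion L)
    (hx : ∀ v, (p v).val z
      (algebraMap (v.adicCompletion L) (AlgebraicClosure (v.adicCompletion L)) (x v)))
    (n : ℕ) (hn : 1 ≤ n) : ∃ b : L, b ≠ 0 ∧ ∀ v, ∃ u : v.adicCompletion L, u ≠ 0 ∧
      x v = algebraMap L (v.adicCompletion L) b * u ^ n := by
  obtain ⟨b, w, hb, hw, h⟩ := kum_unit' hU hR s hz n hn
  refine ⟨b, hb, fun v => ?_⟩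
  obtain ⟨u, hu⟩ := sys_val s p hp z b hb n hn w hw.2.1 h x hx v
  refine ⟨u, ?_, hu⟩
  rintro rfl
  rw [zero_pow (by omega), mul_zero] at hu
  obtain ⟨x', hx'0, hx'⟩ := val_unit s p hp hpU hz v
  have h1 := (hx v).unique hx'
  rw [hu, map_zero] at h1
  exact hx'0 ((_root_.map_eq_zero _).1 h1.symm)

include hU hR hp hpU in
/-- If `1 - z` has roots of sufficiently many prime orders: -/
lemma near_root' (K : Type) [Field K] [NumberField K] [Algebra K L] (hFM : S_FM) (hGEN : S_GEN)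
    {z w : M} (hz : z ∈ units U s) (hw : w ∈ units U s) {n : ℕ} (hn : 0 < n)
    (h : w ^ n = 1 - z) (hcard : Module.finrank ℚ L + 1 ≤ n.divisors.card)
    (x : ∀ v : HeightOneSpectrum (𝓞 L), v.adicCompletion L)
    (hx : ∀ v, (p v).val z
      (algebraMap (v.adicCompletion L) (AlgebraicClosure (v.adicCompletion L)) (x v))) :
    KDZ K {v : HeightOneSpectrum (𝓞 L) | Valued.v (x v) < 1} := by
  classical
  have h' : w ^ n - 1 = -z := by rw [h]; ring
  choose wv hwv0 hwv using fun v => val_unit s p hp hpU hw v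
  have hval : ∀ v, wv v ^ n = 1 - x v := by
    intro v
    apply (algebraMap (v.adicCompletion L) (AlgebraicClosure (v.adicCompletion L))).injective
    have h1 := (hwv v).pow n
    rw [h] at h1
    have h2 := Plc.val_one.sub (hx v)
    rw [map_pow, map_sub, map_one]
    exact h1.unique h2
  have hkum : ∀ i : n.divisors, ∀ ℓ : ℕ, 1 ≤ ℓ → ∃ b : L, b ≠ 0 ∧ ∀ v, ∃ u : v.adicCompletion L,
      u ≠ 0 ∧ ev (cyclotomic i.1 (𝓞 L)) v (wv v) = algebraMap L (v.adicCompletion L) b * u ^ ℓ := by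
    intro i ℓ hℓ
    refine kum_loc' hU hR s p hp hpU (cyc_unit s hU hw hz hn h' i.2)
      (fun v => ev (cyclotomic i.1 (𝓞 L)) v (wv v)) (fun v => ?_) ℓ hℓ
    have h1 := Plc.val_aeval (hwv v) (cyclotomic i.1 L)
    rw [ev_cyc, ← aeval_algebraMap_apply]
    exact h1
  have hdz : ∀ i : n.divisors, KDZ K {v : HeightOneSpectrum (𝓞 L) | Valued.v (wv v) ≤ 1 ∧
      Valued.v (ev (cyclotomic i.1 (𝓞 L)) v (wv v)) < 1} := by
    intro i
    refine near_gen' K hFM hGEN (I := n.divisors) (fun i => cyclotomic i.1 (𝓞 L)) (fun i => cyclotomic.monic _ _)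
      (fun i => ?_) (fun i j hij => cop_cyc fun h => hij (Subtype.ext h)) wv hkum i (Or.inl ?_)
    · rw [natDegree_cyclotomic]
      exact Nat.totient_pos.2 (Nat.pos_of_mem_divisors i.2)
    · rw [Fintype.card_subtype_compl, Fintype.card_subtype_eq, Fintype.card_coe]
      omega
  refine KDZ.mono (KDZ.biUnion (Finset.univ : Finset n.divisors) _ fun i _ => hdz i) fun v hv => ?_
  have hv' : Valued.v (x v) < 1 := hv
  have h1 : Valued.v (wv v) = 1 := by
    have h2 : Valued.v (wv v ^ n) = 1 := by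
      rw [hval v, Valuation.map_sub_eq_of_lt_left, map_one]
      rw [map_one]
      exact hv'
    rw [map_pow] at h2
    exact (pow_eq_one_iff_of_nonneg zero_le hn.ne').1 h2
  have h3 : ∏ i ∈ n.divisors, Valued.v (ev (cyclotomic i (𝓞 L)) v (wv v)) < 1 := by
    rw [← map_prod, prod_ev hn, hval v, sub_sub_cancel_left, Valuation.map_neg]
    exact hv'
  obtain ⟨i, hi, hlt⟩ : ∃ i ∈ n.divisors, Valued.v (ev (cyclotomic i (𝓞 L)) v (wv v)) < 1 := by
    by_contra hnot
    push Not at hnot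
    exact absurd h3 (not_lt.2 (Finset.one_le_prod' hnot))
  rw [Set.mem_iUnion₂]
  exact ⟨⟨i, hi⟩, Finset.mem_univ _, h1.le, hlt⟩

include hU hR hp hpU in
/-- The places where `z` is near zero have density zero. -/
theorem near_zero' (K : Type) [Field K] [NumberField K] [Algebra K L] (hFM : S_FM) (hGEN : S_GEN)
    {z : M} (hz : z ∈ units U s) (hz1 : 1 - z ∈ units U s)
    (x : ∀ v : HeightOneSpectrum (𝓞 L), v.adicCompletion L)
    (hx : ∀ v, (p v).val z
      (algebraMap (v.adicCompletion L) (AlgebraicClosure (v.adicCompletion L)) (x v))) :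
    KDZ K {v : HeightOneSpectrum (𝓞 L) | Valued.v (x v) < 1} := by
  classical
  obtain ⟨m0, hm0, hZ⟩ := hGEN K L
  rcases (hFM m0 hm0).split {ℓ : ℕ | ∃ w ∈ units U s, w ^ ℓ = 1 - z} with hD | hD
  · obtain ⟨A, hA, hcard⟩ := hD.infinite.exists_subset_card_eq (Module.finrank ℚ L)
    obtain ⟨w, hw, hwn⟩ := root_units s A (fun ℓ hℓ => (hA hℓ).1.1) hz1 (fun ℓ hℓ => (hA hℓ).2)
    have hpos : 0 < ∏ ℓ ∈ A, ℓ := Finset.prod_pos fun ℓ hℓ => ((hA hℓ).1.1 : ℓ.Prime).pos
    refine near_root' hU hR s p hp hpU K hFM hGEN hz hw hpos hwn ?_ x hx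
    have h1 : (1 : ℕ) ∉ A := fun h => Nat.not_prime_one (hA h).1.1
    rw [← hcard, ← Finset.card_insert_of_notMem h1]
    apply Finset.card_le_card
    intro ℓ hℓ
    rw [Nat.mem_divisors]
    refine ⟨?_, hpos.ne'⟩
    rcases Finset.mem_insert.1 hℓ with rfl | hℓ
    · exact one_dvd _
    · exact Finset.dvd_prod_of_mem _ hℓ
  · refine hZ _ _ hD (fun ℓ hℓ => hℓ.1.2) 0 fun ℓ hℓ _ => ?_
    have hℓp : ℓ.Prime := hℓ.1.1
    obtain ⟨b, w, hb0, hw, h⟩ := kum_unit' hU hR s hz1 ℓ hℓp.pos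
    obtain ⟨y, m, hm, hym⟩ := IsFractionRing.div_surjective (A := 𝓞 L) b
    have hm0 : m ≠ 0 := nonZeroDivisors.ne_zero hm
    have hmK : algebraMap (𝓞 L) L m ≠ 0 :=
      fun h => hm0 (RingOfIntegers.coe_injective (h.trans (map_zero _).symm))
    obtain ⟨b', hb'⟩ : ∃ b' : 𝓞 L, algebraMap (𝓞 L) L b' = b * algebraMap (𝓞 L) L m ^ ℓ := by
      refine ⟨y * m ^ (ℓ - 1), ?_⟩
      rw [← hym, map_mul, map_pow]
      obtain ⟨k, hk⟩ : ∃ k, ℓ = k + 1 := ⟨ℓ - 1, by have := hℓp.pos; omega⟩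
      rw [hk, Nat.add_sub_cancel, pow_succ]
      field_simp
    have hb'0 : b' ≠ 0 := by
      intro h0
      rw [h0, map_zero] at hb'
      exact mul_ne_zero hb0 (pow_ne_zero _ hmK) hb'.symm
    refine ⟨b', fun c hc => ?_, {v | b' ∈ v.asIdeal}, finite_mem hb'0, fun v hv hvT => ?_⟩
    · apply hℓ.2
      have hc0 : c ≠ 0 := by
        rintro rfl
        rw [zero_pow hℓp.ne_zero] at hc
        exact hb'0 (RingOfIntegers.coe_injective (hc.symm.trans (map_zero _).symm))
      refine ⟨algebraMap L M (c / algebraMap (𝓞 L) L m) * w,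
        units_mul s (const_unit hU s (div_ne_zero hc0 hmK)) hw, ?_⟩
      rw [h, mul_pow, ← map_pow, div_pow]
      congr 2
      rw [div_eq_iff (pow_ne_zero _ hmK), ← hb']
      exact hc
    · have hv' : Valued.v (x v) < 1 := hv
      have hx1 : ∀ v, (p v).val (1 - z)
          (algebraMap (v.adicCompletion L) (AlgebraicClosure (v.adicCompletion L)) (1 - x v)) := by
        intro v
        rw [map_sub, map_one]
        exact Plc.val_one.sub (hx v)
      obtain ⟨ζ, hζ⟩ := sys_val s p hp (1 - z) b hb0 ℓ hℓp.pos w hw.2.1 h (fun v => 1 - x v) hx1 v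
      have hmv : algebraMap L (v.adicCompletion L) (algebraMap (𝓞 L) L m) ≠ 0 :=
        (_root_.map_ne_zero _).2 hmK
      obtain ⟨u, hu⟩ : ∃ u : v.adicCompletion L,
          1 - x v = algebraMap L (v.adicCompletion L) (algebraMap (𝓞 L) L b') * u ^ ℓ := by
        refine ⟨ζ / algebraMap L (v.adicCompletion L) (algebraMap (𝓞 L) L m), ?_⟩
        rw [hb', map_mul, map_pow, div_pow, mul_assoc, mul_div_cancel₀ _ (pow_ne_zero _ hmv)]
        exact hζ
      have hone : Valued.v (1 - x v) = 1 := by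
        rw [Valuation.map_sub_eq_of_lt_left, map_one]
        rw [map_one]
        exact hv'
      have hbv : Valued.v (algebraMap L (v.adicCompletion L) (algebraMap (𝓞 L) L b')) = 1 := by
        refine le_antisymm (val_int v b') (not_lt.1 fun hlt => hvT ?_)
        exact (val_lt v b').1 hlt
      have huv : Valued.v u = 1 := by
        rw [hu, map_mul, hbv, one_mul, map_pow] at hone
        exact (pow_eq_one_iff_of_nonneg zero_le hℓp.ne_zero).1 hone
      have hu0 : u ≠ 0 := by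
        rintro rfl
        rw [map_zero] at huv
        exact zero_ne_one huv
      have huv' : Valued.v u⁻¹ = 1 := by rw [map_inv₀, huv, inv_one]
      obtain ⟨t, ht⟩ := exists_near_int v u⁻¹ huv'.le (γ := 1) one_ne_zero
      refine ⟨t, ?_⟩
      rw [← val_lt, map_sub, map_sub, map_pow, map_pow]
      have h1 := Pool.Agent.U36.SC.pow_sub_lt _ huv'.le (val_int v t) ht ℓ
      have h2 : algebraMap L (v.adicCompletion L) (algebraMap (𝓞 L) L b') -
          algebraMap L (v.adicCompletion L) (algebraMap (𝓞 L) L t) ^ ℓ =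
          (u⁻¹ ^ ℓ - algebraMap L (v.adicCompletion L) (algebraMap (𝓞 L) L t) ^ ℓ) -
            x v * u⁻¹ ^ ℓ := by
        have h3 : algebraMap L (v.adicCompletion L) (algebraMap (𝓞 L) L b') =
            (1 - x v) * u⁻¹ ^ ℓ := by
          rw [hu, mul_assoc, ← mul_pow, mul_inv_cancel₀ hu0, one_pow, mul_one]
        rw [h3]
        ring
      rw [h2]
      refine lt_of_le_of_lt (Valuation.map_sub _ _ _) (max_lt h1 ?_)
      rw [map_mul, map_pow, huv', one_pow, mul_one]
      exact hv'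

include hU hR hp hpU in
/-- **Integrality outside density zero.** -/
theorem integral_dens' (K : Type) [Field K] [NumberField K] [Algebra K L] (hFM : S_FM)
    (hGEN : S_GEN) {z : M} (hz : z ∈ units U s) (hz1 : 1 - z ∈ units U s)
    (x : ∀ v : HeightOneSpectrum (𝓞 L), v.adicCompletion L)
    (hx : ∀ v, (p v).val z
      (algebraMap (v.adicCompletion L) (AlgebraicClosure (v.adicCompletion L)) (x v))) :
    KDZ K {v : HeightOneSpectrum (𝓞 L) | Valued.v (x v) ≠ 1 ∨ Valued.v (1 - x v) ≠ 1} := by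
  have hx0 : ∀ v, x v ≠ 0 := by
    intro v
    obtain ⟨y, hy0, hy⟩ := val_unit s p hp hpU hz v
    have h1 := (algebraMap (v.adicCompletion L) (AlgebraicClosure (v.adicCompletion L))).injective
      ((hx v).unique hy)
    rw [h1]
    exact hy0
  have h0 := near_zero' hU hR s p hp hpU K hFM hGEN hz hz1 x hx
  have h1 := near_zero' hU hR s p hp hpU K hFM hGEN hz1 (by rw [sub_sub_cancel]; exact hz)
    (fun v => 1 - x v) (fun v => by
      rw [map_sub, map_one]
      exact Plc.val_one.sub (hx v))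
  have h2 := near_zero' hU hR s p hp hpU K hFM hGEN (units_inv s hz) (by
      have h3 : 1 - z⁻¹ = -((1 - z) * z⁻¹) := by
        rw [sub_mul, one_mul, mul_inv_cancel₀ hz.1]
        ring
      rw [h3]
      exact units_neg s (units_mul s hz1 (units_inv s hz)))
    (fun v => (x v)⁻¹) (fun v => by
      rw [map_inv₀]
      exact (hx v).inv ((_root_.map_ne_zero _).2 (hx0 v)))
  refine KDZ.mono (KDZ.union (KDZ.union h0 h1) h2) fun v hv => ?_
  by_contra hnot
  rw [Set.mem_union, Set.mem_union, not_or, not_or] at hnot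
  obtain ⟨⟨h3, h4⟩, h5⟩ := hnot
  rw [Set.mem_ofPred_eq, not_lt] at h3 h4 h5
  rw [map_inv₀] at h5
  have h6 : Valued.v (x v) ≤ 1 := by
    rw [← inv_le_inv₀ zero_lt_one (zero_lt_iff.2 ((Valuation.ne_zero_iff _).2 (hx0 v))), inv_one]
    exact h5
  rcases hv with hv | hv
  · exact hv (le_antisymm h6 h3)
  · refine hv (le_antisymm ?_ h4)
    refine (Valuation.map_sub _ _ _).trans (max_le ?_ h6)
    rw [map_one]

end Pool.Agent.U36.SD
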