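import Pool.Agent.U36.DN.Main
import Pool.Agent.U36.HV.Base

/-!
Project SD: statements of the packages.
-/

set_option autoImplicit false

open NumberField Polynomial IsDedekindDomain Pool.Agent.W401.Cheb

namespace Pool.Agent.U36.SD

open Pool.Agent.TH954 Pool.Agent.U36.BA Pool.Agent.U36.DN

/-- FM: the sum of 1/ℓ over the primes ℓ ≡ 1 modulo m diverges -/
def S_FM : Prop := ∀ m : ℕ, 0 < m → Fat {ℓ : ℕ | ℓ.Prime ∧ m ∣ ℓ - 1}

/-- MV: all Kummer characters over the finite extension `N` of `K` occur -/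
def S_MV : Prop :=
  ∀ (K : Type) [Field K] [NumberField K] (N : IntermediateField K (AlgebraicClosure K))
    [FiniteDimensional K N] (A : Finset ℕ), (∀ ℓ ∈ A, ℓ.Prime) →
    (∀ ℓ ∈ A, Module.finrank ℚ K * Module.finrank K N + 1 < ℓ) →
    ∀ n : ℕ, 0 < n → (∀ ℓ ∈ A, ℓ ∣ n) → ∀ Z : AlgebraicClosure K, IsPrimitiveRoot Z n →
    ∀ ξ : ℕ → AlgebraicClosure K, (∀ ℓ ∈ A, ξ ℓ ^ ℓ ∈ N ∧ ∀ x ∈ N, x ^ ℓ ≠ ξ ℓ ^ ℓ) →
    ∀ k : ℕ → ℕ, ∃ σ : GK K, (∀ x ∈ N, σ x = x) ∧ σ Z = Z ∧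
      ∀ ℓ ∈ A, σ (ξ ℓ) = Z ^ ((n / ℓ) * k ℓ) * ξ ℓ

/-- GE: a good exponent exists -/
def S_GE : Prop :=
  ∀ (K : Type) [Field K] [NumberField K] (N : IntermediateField K (AlgebraicClosure K))
    [FiniteDimensional K N] [Normal K N] (h : ℕ), 0 < h → ∀ ℓ : ℕ, ℓ.Prime → h ∣ ℓ - 1 →
    ∀ c ∈ N, (∀ x ∈ N, x ^ ℓ ≠ c) → ∀ σ : GK K,
      ∃ a : ℕ, ¬ ℓ ∣ a ∧ a ^ h ≡ 1 [MOD ℓ] ∧
        ∀ x ∈ N, x ^ ℓ ≠ ∏ i ∈ Finset.range h, (σ ^ i) c ^ (a ^ (h - i))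

section

variable {K : Type} [Field K] [NumberField K]

/-- the subgroup fixing `N`, the `ℓ`-th roots of unity and of all conjugates of `c ℓ`, `ℓ ∈ A` -/
def US (N : IntermediateField K (AlgebraicClosure K)) (A : Finset ℕ)
    (c : ℕ → AlgebraicClosure K) : Subgroup (GK K) where
  carrier := {σ | (∀ x ∈ N, σ x = x) ∧ ∀ ℓ ∈ A, (∀ ζ : AlgebraicClosure K, ζ ^ ℓ = 1 → σ ζ = ζ) ∧
    ∀ τ : GK K, ∀ z : AlgebraicClosure K, z ^ ℓ = τ (c ℓ) → σ z = z}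
  one_mem' := ⟨fun _ _ => rfl, fun _ _ => ⟨fun _ _ => rfl, fun _ _ _ => rfl⟩⟩
  mul_mem' := by
    rintro σ σ' ⟨h1, h2⟩ ⟨h1', h2'⟩
    refine ⟨fun x hx => ?_, fun ℓ hℓ => ⟨fun ζ hζ => ?_, fun τ z hz => ?_⟩⟩
    · rw [AlgEquiv.mul_apply, h1' x hx, h1 x hx]
    · rw [AlgEquiv.mul_apply, (h2' ℓ hℓ).1 ζ hζ, (h2 ℓ hℓ).1 ζ hζ]
    · rw [AlgEquiv.mul_apply, (h2' ℓ hℓ).2 τ z hz, (h2 ℓ hℓ).2 τ z hz]
  inv_mem' := by
    rintro σ ⟨h1, h2⟩
    have key : ∀ x : AlgebraicClosure K, σ x = x → (σ⁻¹ : GK K) x = x := by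
      intro x hx
      have h := congrArg (fun w => (σ⁻¹ : GK K) w) hx
      simp only [← AlgEquiv.mul_apply, inv_mul_cancel] at h
      exact h.symm
    exact ⟨fun x hx => key x (h1 x hx), fun ℓ hℓ => ⟨fun ζ hζ => key ζ ((h2 ℓ hℓ).1 ζ hζ),
      fun τ z hz => key z ((h2 ℓ hℓ).2 τ z hz)⟩⟩

/-- the subgroup fixing `N` and the `n`-th roots of unity -/
def HZ (N : IntermediateField K (AlgebraicClosure K)) (n : ℕ) : Subgroup (GK K) where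
  carrier := {σ | (∀ x ∈ N, σ x = x) ∧ ∀ ζ : AlgebraicClosure K, ζ ^ n = 1 → σ ζ = ζ}
  one_mem' := ⟨fun _ _ => rfl, fun _ _ => rfl⟩
  mul_mem' := by
    rintro σ σ' ⟨h1, h2⟩ ⟨h1', h2'⟩
    refine ⟨fun x hx => ?_, fun ζ hζ => ?_⟩
    · rw [AlgEquiv.mul_apply, h1' x hx, h1 x hx]
    · rw [AlgEquiv.mul_apply, h2' ζ hζ, h2 ζ hζ]
  inv_mem' := by
    rintro σ ⟨h1, h2⟩
    have key : ∀ x : AlgebraicClosure K, σ x = x → (σ⁻¹ : GK K) x = x := by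
      intro x hx
      have h := congrArg (fun w => (σ⁻¹ : GK K) w) hx
      simp only [← AlgEquiv.mul_apply, inv_mul_cancel] at h
      exact h.symm
    exact ⟨fun x hx => key x (h1 x hx), fun ζ hζ => key ζ (h2 ζ hζ)⟩

/-- the `σ` such that `σ ^ h` fixes the `ℓ`-th roots of `c ℓ` if it fixes the `ℓ`-th roots of unity,
for all `ℓ ∈ A` -/
def CO (A : Finset ℕ) (c : ℕ → AlgebraicClosure K) (h : ℕ) : Set (GK K) :=
  {σ | ∀ ℓ ∈ A, (∀ ζ : AlgebraicClosure K, ζ ^ ℓ = 1 → (σ ^ h) ζ = ζ) →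
    ∀ z : AlgebraicClosure K, z ^ ℓ = c ℓ → (σ ^ h) z = z}

/-- the conjugates of the elements of `CO` -/
def CS (A : Finset ℕ) (c : ℕ → AlgebraicClosure K) (h : ℕ) : Set (GK K) :=
  {σ | ∃ τ : GK K, ∀ ℓ ∈ A, (∀ ζ : AlgebraicClosure K, ζ ^ ℓ = 1 → (σ ^ h) ζ = ζ) →
    ∀ z : AlgebraicClosure K, z ^ ℓ = τ (c ℓ) → (σ ^ h) z = z}

/-- `ℓ` is good for `σ` -/
def Good (N : IntermediateField K (AlgebraicClosure K)) (c : ℕ → AlgebraicClosure K) (h : ℕ)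
    (σ : GK K) (ℓ : ℕ) : Prop :=
  ∃ a : ℕ, (∀ ζ : AlgebraicClosure K, ζ ^ ℓ = 1 → σ ζ = ζ ^ a) ∧ a ^ h ≡ 1 [MOD ℓ] ∧
    ∀ x ∈ N, x ^ ℓ ≠ ∏ i ∈ Finset.range h, (σ ^ i) (c ℓ) ^ (a ^ (h - i))

end

/-- OP: `US` is normal and open, `CS` is stable under conjugation and multiplication with `US` -/
def S_OP : Prop :=
  ∀ (K : Type) [Field K] [NumberField K] (N : IntermediateField K (AlgebraicClosure K))
    [FiniteDimensional K N] [Normal K N] (A : Finset ℕ), (∀ ℓ ∈ A, 0 < ℓ) →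
    ∀ c : ℕ → AlgebraicClosure K,
      (US N A c).Normal ∧ IsOpen (US N A c : Set (GK K)) ∧ ∀ h : ℕ,
      (∀ σ ∈ CS A c h, ∀ τ : GK K, τ * σ * τ⁻¹ ∈ CS A c h) ∧
      (∀ σ ∈ CS A c h, ∀ u ∈ US N A c, σ * u ∈ CS A c h) ∧
      (∀ σ ∈ CO A c h, ∀ u ∈ US N A c, σ * u ∈ CO A c h)

/-- FIB: the fibres -/
def S_FIB : Prop :=
  ∀ (K : Type) [Field K] [NumberField K] (N : IntermediateField K (AlgebraicClosure K))
    [FiniteDimensional K N] [Normal K N] (A : Finset ℕ), (∀ ℓ ∈ A, ℓ.Prime) →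
    (∀ ℓ ∈ A, Module.finrank ℚ K * Module.finrank K N + 1 < ℓ) →
    ∀ c : ℕ → AlgebraicClosure K, (∀ ℓ ∈ A, c ℓ ∈ N ∧ ∀ x ∈ N, x ^ ℓ ≠ c ℓ) →
    ∀ (h : ℕ) (σ : GK K) (A' : Finset ℕ), A' ⊆ A → (∀ ℓ ∈ A', Good N c h σ ℓ) →
      (∏ ℓ ∈ A', ℓ) * ((QuotientGroup.mk : GK K → GK K ⧸ US N A c) ''
        {g | g ∈ CO A c h ∧ σ⁻¹ * g ∈ HZ N (∏ ℓ ∈ A, ℓ)}).ncard ≤
      ((QuotientGroup.mk : GK K → GK K ⧸ US N A c) '' (HZ N (∏ ℓ ∈ A, ℓ) : Set (GK K))).ncard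

/-- C1: the proportion of `CO` -/
def S_C1 : Prop :=
  ∀ (K : Type) [Field K] [NumberField K] (N : IntermediateField K (AlgebraicClosure K))
    [FiniteDimensional K N] [Normal K N] (A : Finset ℕ), (∀ ℓ ∈ A, ℓ.Prime) →
    (∀ ℓ ∈ A, Module.finrank ℚ K * Module.finrank K N + 1 < ℓ) →
    (∀ ℓ ∈ A, Module.finrank K N ∣ ℓ - 1) →
    ∀ c : ℕ → AlgebraicClosure K, (∀ ℓ ∈ A, c ℓ ∈ N ∧ ∀ x ∈ N, x ^ ℓ ≠ c ℓ) →
      (((QuotientGroup.mk : GK K → GK K ⧸ US N A c) '' CO A c (Module.finrank K N)).ncard : ℝ) /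
        (Nat.card (GK K ⧸ US N A c) : ℝ) ≤
      (Module.finrank K N : ℝ) * (Module.finrank ℚ K : ℝ) * ∏ ℓ ∈ A, (((ℓ : ℝ) - 1) / ℓ)

/-- CNT: the proportion of `CS` -/
def S_CNT : Prop :=
  ∀ (K : Type) [Field K] [NumberField K] (N : IntermediateField K (AlgebraicClosure K))
    [FiniteDimensional K N] [Normal K N] (A : Finset ℕ), (∀ ℓ ∈ A, ℓ.Prime) →
    (∀ ℓ ∈ A, Module.finrank ℚ K * Module.finrank K N + 1 < ℓ) →
    (∀ ℓ ∈ A, Module.finrank K N ∣ ℓ - 1) →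
    ∀ c : ℕ → AlgebraicClosure K, (∀ ℓ ∈ A, c ℓ ∈ N ∧ ∀ x ∈ N, x ^ ℓ ≠ c ℓ) →
      (((QuotientGroup.mk : GK K → GK K ⧸ US N A c) '' CS A c (Module.finrank K N)).ncard : ℝ) /
        (Nat.card (GK K ⧸ US N A c) : ℝ) ≤
      (Module.finrank K N : ℝ) ^ 2 * (Module.finrank ℚ K : ℝ) * ∏ ℓ ∈ A, (((ℓ : ℝ) - 1) / ℓ)

/-- FF: powers of Frobenius elements fix the roots of `ℓ`-th powers modulo `Q` -/
def S_FF : Prop :=
  ∀ (K : Type) [Field K] [NumberField K] (v : HeightOneSpectrum (𝓞 K)) (σ : GK K)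
    (Q : Ideal (𝓞 (AlgebraicClosure K))), Q.IsMaximal →
    Q.comap (algebraMap (𝓞 K) (𝓞 (AlgebraicClosure K))) = v.asIdeal →
    (∀ x : 𝓞 (AlgebraicClosure K), σ • x - x ^ Ideal.absNorm v.asIdeal ∈ Q) →
    ∀ (h ℓ : ℕ), 0 < h → 0 < ℓ → ∀ c t : 𝓞 (AlgebraicClosure K), c ∉ Q →
    (ℓ : 𝓞 (AlgebraicClosure K)) ∉ Q → c - t ^ ℓ ∈ Q → (σ ^ h) • c = c → (σ ^ h) • t = t →
    (∀ ζ : AlgebraicClosure K, ζ ^ ℓ = 1 → (σ ^ h) ζ = ζ) →
    ∀ z : AlgebraicClosure K, z ^ ℓ = algebraMap (𝓞 (AlgebraicClosure K)) (AlgebraicClosure K) c →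
      (σ ^ h) z = z

/-- the set of the places of `K` below the places in `S` has density zero -/
def KDZ (K : Type) [Field K] [NumberField K] {L : Type} [Field L] [NumberField L] [Algebra K L]
    (S : Set (HeightOneSpectrum (𝓞 L))) : Prop :=
  DZ {v : HeightOneSpectrum (𝓞 K) | ∃ w ∈ S,
    w.asIdeal.comap (algebraMap (𝓞 K) (𝓞 L)) = v.asIdeal}

/-- DEN: the zero density lemma for Galois extensions -/
def S_DEN : Prop :=
  ∀ (K L : Type) [Field K] [NumberField K] [Field L] [NumberField L] [Algebra K L] [IsGalois K L]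
    (S : Set (HeightOneSpectrum (𝓞 L))) (D : Set ℕ), Fat D →
    (∀ ℓ ∈ D, Module.finrank K L ∣ ℓ - 1) → ∀ B : ℕ,
    (∀ ℓ ∈ D, B < ℓ → ∃ c : 𝓞 L, (∀ x : L, x ^ ℓ ≠ c) ∧
      ∃ T : Set (HeightOneSpectrum (𝓞 L)), T.Finite ∧
        ∀ w ∈ S, w ∉ T → ∃ t : 𝓞 L, c - t ^ ℓ ∈ w.asIdeal) → KDZ K S

/-- GEN: the zero density lemma for all extensions -/
def S_GEN : Prop :=
  ∀ (K L : Type) [Field K] [NumberField K] [Field L] [NumberField L] [Algebra K L],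
    ∃ m : ℕ, 0 < m ∧
    ∀ (S : Set (HeightOneSpectrum (𝓞 L))) (D : Set ℕ), Fat D →
    (∀ ℓ ∈ D, m ∣ ℓ - 1) → ∀ B : ℕ,
    (∀ ℓ ∈ D, B < ℓ → ∃ c : 𝓞 L, (∀ x : L, x ^ ℓ ≠ c) ∧
      ∃ T : Set (HeightOneSpectrum (𝓞 L)), T.Finite ∧
        ∀ w ∈ S, w ∉ T → ∃ t : 𝓞 L, c - t ^ ℓ ∈ w.asIdeal) → KDZ K S

/-- LC: a finite level which fixes `z` -/
def S_LC : Prop :=
  ∀ (K F M B : Type) [Field K] [NumberField K] [Field F] [Field M] [Field B] [Algebra K F]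
    [Algebra F M] [Algebra K M] [IsScalarTower K F M] [Algebra K B] [IsAlgClosure K B]
    [Algebra.IsAlgebraic F M] (s : GalSection K F M B) (z : M),
    ∃ L : IntermediateField K B, FiniteDimensional K L ∧ Normal K L ∧
      ∀ g : B ≃ₐ[K] B, (∀ x ∈ L, g x = x) → s.s g z = z

/-- EXT: the algebraic closures of the completions -/
def S_EXT : Prop :=
  ∀ (K L : Type) [Field K] [NumberField K] [Field L] [NumberField L] [Algebra K L]
    (w : HeightOneSpectrum (𝓞 L)),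
    ∃ φ : AlgebraicClosure ((w.under (𝓞 K)).adicCompletion K) ≃+*
        AlgebraicClosure (w.adicCompletion L),
      ∀ x, φ (algebraMap ((w.under (𝓞 K)).adicCompletion K) _ x) =
        algebraMap (w.adicCompletion L) _ (Pool.Agent.U36.HV.phi w x)

/-- BC: base change of sections -/
def S_BC : Prop :=
  ∀ (K F M B : Type) [Field K] [NumberField K] [Field F] [Field M] [Field B] [Algebra K F]
    [Algebra F M] [Algebra K M] [IsScalarTower K F M] [Algebra K B] [IsAlgClosure K B]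
    [Algebra.IsAlgebraic F M] (s : GalSection K F M B)
    (L F' : Type) [Field L] [NumberField L] [Algebra K L] [Algebra L B] [IsScalarTower K L B]
    [Field F'] [Algebra L F'] [Algebra F F'] [Algebra F' M] [IsScalarTower F F' M] [Algebra L M]
    [IsScalarTower L F' M] [IsScalarTower K L M],
    (∀ x : L, algebraMap L M x = s.j (algebraMap L B x)) →
    (∀ (g : B ≃ₐ[L] B) (y : F'), s.s (g.restrictScalars K) (algebraMap F' M y) =
      algebraMap F' M y) →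
    ∃ s' : GalSection L F' M B, (∀ (g : B ≃ₐ[L] B) (x : M), s'.s g x = s.s (g.restrictScalars K) x) ∧
      ∀ p : ∀ v : HeightOneSpectrum (𝓞 K), Plc K M (AlgebraicClosure (v.adicCompletion K)),
        (∀ v, s.GivenBy (v.adicCompletion K) (p v)) →
        ∀ w : HeightOneSpectrum (𝓞 L),
          ∃ (q : Plc L M (AlgebraicClosure (w.adicCompletion L))) (g : B ≃ₐ[K] B)
            (φ : AlgebraicClosure ((w.under (𝓞 K)).adicCompletion K) ≃+*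
              AlgebraicClosure (w.adicCompletion L)),
            s'.GivenBy (w.adicCompletion L) q ∧
            (∀ x, φ (algebraMap ((w.under (𝓞 K)).adicCompletion K) _ x) =
              algebraMap (w.adicCompletion L) _ (Pool.Agent.U36.HV.phi w x)) ∧
            (∀ a, a ∈ (p (w.under (𝓞 K))).W ↔ s.s g a ∈ q.W) ∧
            ∀ a c, (p (w.under (𝓞 K))).val a c → q.val (s.s g a) (φ c)

/-- `ζ` is a unit of the ring of integers of the algebraic closure of the completion -/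
def UnitAt {K : Type} [Field K] [NumberField K] (v : HeightOneSpectrum (𝓞 K))
    (ζ : AlgebraicClosure (v.adicCompletion K)) : Prop :=
  IsIntegral (v.adicCompletionIntegers K) ζ ∧ IsIntegral (v.adicCompletionIntegers K) ζ⁻¹

/-- TR: integrality of the values -/
def S_TR : Prop :=
  ∀ (K F M B L : Type) [Field K] [NumberField K] [Field F] [Field M] [Field B] [Algebra K F]
    [Algebra F M] [Algebra K M] [IsScalarTower K F M] [Algebra K B] [IsAlgClosure K B]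
    [Algebra.IsAlgebraic F M] [Field L] [NumberField L] [Algebra K L] (s : GalSection K F M B)
    (w : HeightOneSpectrum (𝓞 L))
    (p : Plc K M (AlgebraicClosure ((w.under (𝓞 K)).adicCompletion K)))
    (φ : AlgebraicClosure ((w.under (𝓞 K)).adicCompletion K) ≃+*
              AlgebraicClosure (w.adicCompletion L)),
    s.GivenBy ((w.under (𝓞 K)).adicCompletion K) p →
    (∀ x, φ (algebraMap ((w.under (𝓞 K)).adicCompletion K) _ x) =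
      algebraMap (w.adicCompletion L) _ (Pool.Agent.U36.HV.phi w x)) →
    ∀ A : Finset M, (∀ g, ∀ a ∈ A, s.s g a ∈ A) →
    (∀ a ∈ A, ∃ c x, p.val a c ∧ φ c = algebraMap (w.adicCompletion L) _ x ∧ Valued.v x = 1) →
    ∀ a ∈ A, ∀ c, p.val a c → UnitAt (w.under (𝓞 K)) c

end Pool.Agent.U36.SD
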